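import Pool.Agent.H800Z.RT.Gr

/-! The ring of symmetric functions as a polynomial ring in the `h`'s, power sums, the
derivations `D r` and the ideals `I l k`. -/

open MvPolynomial Finset

namespace Pool.Agent.H800Z.RT

abbrev L := MvPolynomial ℕ ℚ

def wt (s : ℕ) : ℕ := s + 1

abbrev Hom (f : L) (d : ℕ) : Prop := IsWeightedHomogeneous wt f d

noncomputable def h : ℕ → L
  | 0 => 1
  | s + 1 => X s

noncomputable def Hs : PowerSeries L := PowerSeries.mk h

noncomputable def As : PowerSeries L := PowerSeries.invOfUnit Hs 1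

noncomputable def a (s : ℕ) : L := PowerSeries.coeff s As

@[simp] lemma coeff_Hs (s : ℕ) : PowerSeries.coeff s Hs = h s := by simp [Hs]

lemma coeff_As (s : ℕ) : PowerSeries.coeff s As = a s := rfl

lemma Hs_mul_As : Hs * As = 1 :=
  PowerSeries.mul_invOfUnit _ _ (by simp [Hs, h])

noncomputable def th (f : PowerSeries L) : PowerSeries L :=
  PowerSeries.X * PowerSeries.derivative L f

lemma coeff_th (f : PowerSeries L) (n : ℕ) :
    PowerSeries.coeff n (th f) = (n : L) * PowerSeries.coeff n f := by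
  cases n with
  | zero => simp [th]
  | succ n => rw [th, PowerSeries.coeff_succ_X_mul, PowerSeries.coeff_derivative]; push_cast; ring

lemma th_mul (f g : PowerSeries L) : th (f * g) = th f * g + f * th g := by
  simp only [th, Derivation.leibniz, smul_eq_mul]; ring

lemma th_one : th 1 = 0 := by simp [th]

lemma th_smul (c : ℚ) (f : PowerSeries L) : th (c • f) = c • th f := by
  ext n : 1
  simp only [coeff_th, PowerSeries.coeff_smul, mul_smul_comm]

noncomputable def Ps : PowerSeries L := th Hs * As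

noncomputable def p (s : ℕ) : L := PowerSeries.coeff s Ps

lemma coeff_Ps (s : ℕ) : PowerSeries.coeff s Ps = p s := rfl

lemma p_zero : p 0 = 0 := by
  simp [p, Ps, th]

noncomputable def S (r : ℕ) : PowerSeries L :=
  PowerSeries.mk fun j => if j = 0 then 0 else p (r + j)

noncomputable def D (r : ℕ) : Derivation ℚ L L :=
  mkDerivation ℚ fun s => PowerSeries.coeff (s + 1) (Hs * S r)

noncomputable def Dt (r : ℕ) (f : PowerSeries L) : PowerSeries L :=
  PowerSeries.mk fun n => D r (PowerSeries.coeff n f)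

lemma Dt_mul (r : ℕ) (f g : PowerSeries L) : Dt r (f * g) = Dt r f * g + f * Dt r g := by
  ext n : 1
  simp only [Dt, PowerSeries.coeff_mk, PowerSeries.coeff_mul, map_sum, map_add,
    Derivation.leibniz, smul_eq_mul, ← sum_add_distrib]
  refine sum_congr rfl fun x _ => by ring

lemma Dt_one (r : ℕ) : Dt r 1 = 0 := by
  ext n : 1
  simp only [Dt, PowerSeries.coeff_mk, PowerSeries.coeff_one]
  split_ifs <;> simp

lemma hom_coeff_mul {f g : PowerSeries L} {i j : ℕ}
    (hf : ∀ n, Hom (PowerSeries.coeff n f) (n + i)) (hg : ∀ n, Hom (PowerSeries.coeff n g) (n + j))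
    (n : ℕ) : Hom (PowerSeries.coeff n (f * g)) (n + (i + j)) := by
  rw [PowerSeries.coeff_mul]
  refine IsWeightedHomogeneous.sum _ _ _ fun x hx => ?_
  have hx' : x.1 + x.2 = n := by simpa using hx
  have := (hf x.1).mul (hg x.2)
  have e : x.1 + i + (x.2 + j) = n + (i + j) := by omega
  rwa [e] at this

lemma hom_h (n : ℕ) : Hom (h n) n := by
  cases n with
  | zero => exact isWeightedHomogeneous_one ℚ wt
  | succ n => exact isWeightedHomogeneous_X ℚ wt n

lemma hom_a (n : ℕ) : Hom (a n) n := by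
  induction n using Nat.strong_induction_on with
  | _ n ih =>
    unfold a As
    rw [PowerSeries.coeff_invOfUnit]
    split_ifs with h0
    · subst h0; simpa using isWeightedHomogeneous_one ℚ wt
    · simp only [inv_one, Units.val_one, neg_mul, one_mul]
      refine IsWeightedHomogeneous.neg (IsWeightedHomogeneous.sum _ _ _ fun x hx => ?_)
      have hx' : x.1 + x.2 = n := by simpa using hx
      split_ifs with h1
      · have := (hom_h x.1).mul (ih x.2 h1)
        rw [hx'] at this
        simpa [a, As] using this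
      · exact isWeightedHomogeneous_zero ℚ wt n

lemma hom_natCast (n : ℕ) : Hom (n : L) 0 := by
  simpa using isWeightedHomogeneous_C wt (n : ℚ)

lemma hom_p (n : ℕ) : Hom (p n) n := by
  refine hom_coeff_mul (i := 0) (j := 0) (fun n => ?_) (fun n => hom_a n) n
  rw [coeff_th, coeff_Hs]
  simpa using (hom_natCast n).mul (hom_h n)

lemma hom_S (r n : ℕ) : Hom (PowerSeries.coeff n (S r)) (n + r) := by
  simp only [S, PowerSeries.coeff_mk]
  split_ifs
  · exact isWeightedHomogeneous_zero ℚ wt _
  · rw [add_comm n r]; exact hom_p _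

lemma hom_D (r : ℕ) {f : L} {d : ℕ} (hf : Hom f d) : Hom (D r f) (d + r) := by
  refine hom_induction (w := wt) (fun d f => Hom (D r f) (d + r)) ?_ ?_ ?_ ?_ hf
  · intro d; simpa using isWeightedHomogeneous_zero ℚ wt _
  · intro d f g h1 h2; rw [map_add]; exact h1.add h2
  · intro c; simpa using isWeightedHomogeneous_zero ℚ wt _
  · intro d f s hf h1
    rw [Derivation.leibniz, smul_eq_mul, smul_eq_mul]
    have h2 : Hom (D r (X s)) (s + 1 + (0 + r)) := by
      rw [D, mkDerivation_X]
      exact hom_coeff_mul (i := 0) (fun n => by simpa using hom_h n) (hom_S r) (s + 1)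
    have h3 := hf.mul h2
    have h4 := (isWeightedHomogeneous_X ℚ wt s).mul h1
    have e1 : d + (s + 1 + (0 + r)) = d + wt s + r := by simp only [wt]; ring
    have e2 : wt s + (d + r) = d + wt s + r := by ring
    rw [e1] at h3; rw [e2] at h4
    exact h3.add h4

/-- The two generating series `H` (sign `1`) and `1/H` (sign `-1`). -/
structure Fld (U : PowerSeries L) (ε : ℚ) : Prop where
  sq : ε * ε = 1
  newton : Ps * U = ε • th U
  der : ∀ r, Dt r U = ε • (U * S r)

lemma Dt_Hs (r : ℕ) : Dt r Hs = Hs * S r := by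
  ext n : 1
  simp only [Dt, PowerSeries.coeff_mk, coeff_Hs]
  cases n with
  | zero => simp [h, S]
  | succ n => simp only [h]; rw [D, mkDerivation_X]

lemma fld_H : Fld Hs 1 where
  sq := one_mul 1
  newton := by
    rw [one_smul, Ps, mul_assoc, mul_comm As, Hs_mul_As, mul_one]
  der r := by rw [one_smul, Dt_Hs]

lemma fld_A : Fld As (-1) where
  sq := by norm_num
  newton := by
    have h1 := th_mul Hs As
    rw [Hs_mul_As, th_one] at h1
    rw [neg_smul, one_smul, Ps]
    have h2 := Hs_mul_As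
    linear_combination (-As) * h1 - th As * h2
  der r := by
    have h1 := Dt_mul r Hs As
    rw [Hs_mul_As, Dt_one, Dt_Hs] at h1
    rw [neg_smul, one_smul]
    have h2 := Hs_mul_As
    linear_combination (-As) * h1 - (Dt r As + As * S r) * h2

noncomputable def T (r : ℕ) : PowerSeries L :=
  PowerSeries.mk fun j => if j ≤ r then p j else 0

lemma Ps_eq (r : ℕ) : Ps = T r + PowerSeries.X ^ r * S r := by
  ext n : 1
  simp only [map_add, PowerSeries.coeff_X_pow_mul', T, S, PowerSeries.coeff_mk, coeff_Ps]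
  by_cases h1 : n ≤ r
  · by_cases h2 : r ≤ n
    · have : n - r = 0 := by omega
      simp [h1, h2, this]
    · simp [h1, h2]
  · have h2 : r ≤ n := by omega
    have h3 : n - r ≠ 0 := by omega
    have h4 : r + (n - r) = n := by omega
    simp [h1, h2, h3, h4]

lemma Fld.der_mod {U : PowerSeries L} {ε : ℚ} (hU : Fld U ε) (J : Ideal L) (s r : ℕ)
    (hJ : ∀ t, s < t → PowerSeries.coeff t U ∈ J) :
    D r (PowerSeries.coeff s U) -
      ((if r = 0 then (s : L) else 0) - ε • p r) * PowerSeries.coeff s U ∈ J := by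
  have h1 : D r (PowerSeries.coeff s U) = ε • PowerSeries.coeff s (U * S r) := by
    have := congrArg (PowerSeries.coeff s) (hU.der r)
    simpa [Dt] using this
  have h2 : PowerSeries.coeff s (U * S r) =
      PowerSeries.coeff (s + r) (Ps * U) - PowerSeries.coeff (s + r) (U * T r) := by
    rw [← PowerSeries.coeff_X_pow_mul (U * S r) r s, ← map_sub]
    congr 1
    rw [Ps_eq r]; ring
  rw [h1, h2, hU.newton, PowerSeries.coeff_smul, smul_sub, smul_smul, hU.sq, one_smul, coeff_th,
    PowerSeries.coeff_mul]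
  have hmem : (s, r) ∈ antidiagonal (s + r) := by simp
  rw [← add_sum_erase _ _ hmem]
  have h3 : ∑ x ∈ (antidiagonal (s + r)).erase (s, r),
      PowerSeries.coeff x.1 U * PowerSeries.coeff x.2 (T r) ∈ J := by
    refine J.sum_mem fun x hx => ?_
    rw [mem_erase] at hx
    have hx' : x.1 + x.2 = s + r := by simpa using hx.2
    simp only [T, PowerSeries.coeff_mk]
    split_ifs with h4
    · refine J.mul_mem_right _ (hJ _ ?_)
      by_contra h5
      exact hx.1 (Prod.ext (by simp; omega) (by simp; omega))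
    · simp
  have h4 : ((s + r : ℕ) : L) * PowerSeries.coeff (s + r) U -
      (if r = 0 then (s : L) else 0) * PowerSeries.coeff s U ∈ J := by
    split_ifs with h5
    · subst h5; simp
    · simpa using J.mul_mem_left _ (hJ (s + r) (by omega))
  have h5 : PowerSeries.coeff r (T r) = p r := by simp [T]
  have := J.sub_mem h4 (J.mul_mem_left (C ε) h3)
  convert this using 1
  simp only [h5, smul_eq_C_mul]
  ring

def Igen (l k : ℕ) : Set L := {x | ∃ s, k < s ∧ x = h s} ∪ {x | ∃ s, l < s ∧ x = a s}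

noncomputable def I (l k : ℕ) : Ideal L := Ideal.span (Igen l k)

lemma h_mem {l k s : ℕ} (hs : k < s) : h s ∈ I l k := Ideal.subset_span (Or.inl ⟨s, hs, rfl⟩)

lemma a_mem {l k s : ℕ} (hs : l < s) : a s ∈ I l k := Ideal.subset_span (Or.inr ⟨s, hs, rfl⟩)

lemma I_le {l k : ℕ} {J : Ideal L} (h1 : ∀ s, k < s → h s ∈ J) (h2 : ∀ s, l < s → a s ∈ J) :
    I l k ≤ J := by
  refine Ideal.span_le.2 ?_
  rintro x (⟨s, hs, rfl⟩ | ⟨s, hs, rfl⟩)
  exacts [h1 s hs, h2 s hs]

lemma I_comp {l k : ℕ} {f : L} (hf : f ∈ I l k) (n : ℕ) :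
    weightedHomogeneousComponent wt n f ∈ I l k := by
  refine span_comp ?_ hf n
  rintro x (⟨s, _, rfl⟩ | ⟨s, _, rfl⟩)
  exacts [⟨s, hom_h s⟩, ⟨s, hom_a s⟩]

lemma I_mono {l k l' k' : ℕ} (hl : l' ≤ l) (hk : k' ≤ k) : I l k ≤ I l' k' :=
  I_le (fun _ hs => h_mem (by omega)) (fun _ hs => a_mem (by omega))

lemma I_succ_l (l k : ℕ) : I l k = I (l + 1) k ⊔ Ideal.span {a (l + 1)} := by
  apply le_antisymm
  · refine I_le (fun s hs => Ideal.mem_sup_left (h_mem hs)) fun s hs => ?_
    by_cases h1 : s = l + 1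
    · subst h1; exact Ideal.mem_sup_right (Ideal.subset_span rfl)
    · exact Ideal.mem_sup_left (a_mem (by omega))
  · refine sup_le (I_mono (by omega) le_rfl) ?_
    rw [Ideal.span_singleton_le_iff_mem]; exact a_mem (by omega)

lemma I_succ_k (l k : ℕ) : I l k = I l (k + 1) ⊔ Ideal.span {h (k + 1)} := by
  apply le_antisymm
  · refine I_le (fun s hs => ?_) fun s hs => Ideal.mem_sup_left (a_mem hs)
    by_cases h1 : s = k + 1
    · subst h1; exact Ideal.mem_sup_right (Ideal.subset_span rfl)
    · exact Ideal.mem_sup_left (h_mem (by omega))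
  · refine sup_le (I_mono le_rfl (by omega)) ?_
    rw [Ideal.span_singleton_le_iff_mem]; exact h_mem (by omega)

lemma ha_mem {l k : ℕ} (hlk : 0 < k + l) : h k * a l ∈ I l k := by
  have h1 := congrArg (PowerSeries.coeff (k + l)) Hs_mul_As
  rw [PowerSeries.coeff_mul, PowerSeries.coeff_one, if_neg (by omega)] at h1
  have hmem : (k, l) ∈ antidiagonal (k + l) := by simp
  rw [← add_sum_erase _ _ hmem] at h1
  have h3 : ∑ x ∈ (antidiagonal (k + l)).erase (k, l),
      PowerSeries.coeff x.1 Hs * PowerSeries.coeff x.2 As ∈ I l k := by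
    refine Ideal.sum_mem _ fun x hx => ?_
    rw [mem_erase] at hx
    have hx' : x.1 + x.2 = k + l := by simpa using hx.2
    rw [coeff_Hs, coeff_As]
    by_cases h4 : k < x.1
    · exact Ideal.mul_mem_right _ _ (h_mem h4)
    · refine Ideal.mul_mem_left _ _ (a_mem ?_)
      by_contra h5
      exact hx.1 (Prod.ext (by simp; omega) (by simp; omega))
  have h2 := eq_neg_of_add_eq_zero_left h1
  simp only [coeff_Hs, coeff_As] at h2 h3
  rw [h2]
  exact (I l k).neg_mem h3

lemma ha_mem' {l k s t : ℕ} (hs : k ≤ s) (ht : l ≤ t) (hlk : 0 < k + l) : h s * a t ∈ I l k := by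
  rcases hs.lt_or_eq with hs | rfl
  · exact Ideal.mul_mem_right _ _ (h_mem hs)
  rcases ht.lt_or_eq with ht | rfl
  · exact Ideal.mul_mem_left _ _ (a_mem ht)
  exact ha_mem hlk

lemma mul_a_mem {l k : ℕ} {f : L} (hf : f ∈ I (l + 1) k) : a (l + 1) * f ∈ I (l + 1) (k + 1) := by
  rw [I_succ_k, Submodule.mem_sup] at hf
  obtain ⟨y, hy, z, hz, rfl⟩ := hf
  obtain ⟨c, rfl⟩ := Ideal.mem_span_singleton'.1 hz
  have := ha_mem (l := l + 1) (k := k + 1) (by omega)
  have e : a (l + 1) * (y + c * h (k + 1)) = a (l + 1) * y + c * (h (k + 1) * a (l + 1)) := by ring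
  rw [e]
  exact Ideal.add_mem _ (Ideal.mul_mem_left _ _ hy) (Ideal.mul_mem_left _ _ this)

lemma mul_h_mem {l k : ℕ} {f : L} (hf : f ∈ I l (k + 1)) : h (k + 1) * f ∈ I (l + 1) (k + 1) := by
  rw [I_succ_l, Submodule.mem_sup] at hf
  obtain ⟨y, hy, z, hz, rfl⟩ := hf
  obtain ⟨c, rfl⟩ := Ideal.mem_span_singleton'.1 hz
  have := ha_mem (l := l + 1) (k := k + 1) (by omega)
  have e : h (k + 1) * (y + c * a (l + 1)) = h (k + 1) * y + c * (h (k + 1) * a (l + 1)) := by ring
  rw [e]
  exact Ideal.add_mem _ (Ideal.mul_mem_left _ _ hy) (Ideal.mul_mem_left _ _ this)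

lemma D_mem {l k : ℕ} (r : ℕ) {f : L} (hf : f ∈ I l k) : D r f ∈ I l k := by
  induction hf using Submodule.span_induction with
  | mem x hx =>
    rcases hx with ⟨s, hs, rfl⟩ | ⟨s, hs, rfl⟩
    · have := fld_H.der_mod (I l k) s r (fun t ht => by rw [coeff_Hs]; exact h_mem (by omega))
      rw [coeff_Hs] at this
      exact (Submodule.sub_mem_iff_left _ (Ideal.mul_mem_left _ _ (h_mem hs))).1 this
    · have := fld_A.der_mod (I l k) s r (fun t ht => a_mem (by omega))
      rw [coeff_As] at this
      exact (Submodule.sub_mem_iff_left _ (Ideal.mul_mem_left _ _ (a_mem hs))).1 this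
  | zero => simp
  | add x y _ _ h1 h2 => rw [map_add]; exact Ideal.add_mem _ h1 h2
  | smul c x hx h1 =>
    rw [smul_eq_mul, Derivation.leibniz, smul_eq_mul, smul_eq_mul]
    exact Ideal.add_mem _ (Ideal.mul_mem_left _ _ h1) (Ideal.mul_mem_right _ _ hx)

lemma p_mem {l k i : ℕ} (hi : k + l ≤ i) (hlk : 0 < k + l) : p i ∈ I l k := by
  rw [p, Ps, PowerSeries.coeff_mul]
  refine Ideal.sum_mem _ fun x hx => ?_
  have hx' : x.1 + x.2 = i := by simpa using hx
  rw [coeff_th, coeff_Hs, coeff_As, mul_assoc]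
  refine Ideal.mul_mem_left _ _ ?_
  by_cases h4 : k < x.1
  · exact Ideal.mul_mem_right _ _ (h_mem h4)
  by_cases h5 : l < x.2
  · exact Ideal.mul_mem_left _ _ (a_mem h5)
  exact ha_mem' (by omega) (by omega) hlk

lemma D_mem_big {l k r : ℕ} (hr : k + l ≤ r + 1) (hlk : 0 < k + l) (f : L) : D r f ∈ I l k := by
  induction f using MvPolynomial.induction_on with
  | C c => simp
  | add f g h1 h2 => rw [map_add]; exact Ideal.add_mem _ h1 h2
  | mul_X f s h1 =>
    rw [Derivation.leibniz, smul_eq_mul, smul_eq_mul]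
    refine Ideal.add_mem _ (Ideal.mul_mem_left _ _ ?_) (Ideal.mul_mem_left _ _ h1)
    rw [D, mkDerivation_X, PowerSeries.coeff_mul]
    refine Ideal.sum_mem _ fun x _ => Ideal.mul_mem_left _ _ ?_
    simp only [S, PowerSeries.coeff_mk]
    split_ifs with h0
    · exact Ideal.zero_mem _
    · exact p_mem (by omega) hlk

/-- The divergence series. -/
noncomputable def Cs (l k : ℕ) : PowerSeries L := ((l : PowerSeries L) + Ps) * ((k : PowerSeries L) - Ps)

noncomputable def c (l k r : ℕ) : L := PowerSeries.coeff r (Cs l k)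

lemma coeff_natCast (n r : ℕ) :
    PowerSeries.coeff r (n : PowerSeries L) = if r = 0 then (n : L) else 0 := by
  rw [← map_natCast (PowerSeries.C (R := L)), PowerSeries.coeff_C]

lemma c_succ_l (l k r : ℕ) :
    c (l + 1) k r = c l k r + ((if r = 0 then (k : L) else 0) - (1 : ℚ) • p r) := by
  rw [one_smul, ← coeff_natCast, ← coeff_Ps, c, c, ← map_sub, ← map_add]
  congr 1
  simp only [Cs]; push_cast; ring

lemma c_succ_k (l k r : ℕ) :
    c l (k + 1) r = c l k r + ((if r = 0 then (l : L) else 0) - (-1 : ℚ) • p r) := by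
  rw [neg_smul, one_smul, sub_neg_eq_add, ← coeff_natCast, ← coeff_Ps, c, c, ← map_add, ← map_add]
  congr 1
  simp only [Cs]; push_cast; ring

lemma hom_c (l k r : ℕ) : Hom (c l k r) r := by
  have hn : ∀ n r : ℕ, Hom (PowerSeries.coeff r (n : PowerSeries L)) r := by
    intro n r
    rw [coeff_natCast]; split_ifs with h0
    · subst h0; exact hom_natCast n
    · exact isWeightedHomogeneous_zero ℚ wt _
  refine hom_coeff_mul (i := 0) (j := 0) (fun n => ?_) (fun n => ?_) r
  · rw [map_add]; exact (hn l n).add (hom_p n)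
  · rw [map_sub]; exact (hn k n).sub (hom_p n)

lemma c_zero (l k : ℕ) : c l k 0 = (l : L) * k := by
  have := p_zero
  rw [p, PowerSeries.coeff_zero_eq_constantCoeff] at this
  simp [c, Cs, this]

lemma c_mem_big {l k r : ℕ} (hr : k + l ≤ r + 1) : c l k r ∈ I l k := by
  have e : Cs l k = ((l : PowerSeries L) * As - th As) * ((k : PowerSeries L) * Hs - th Hs) := by
    have h1 := fld_H.newton
    have h2 := fld_A.newton
    rw [one_smul] at h1
    rw [neg_smul, one_smul] at h2
    have h3 := Hs_mul_As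
    have h2' : th As = -(Ps * As) := by rw [h2, neg_neg]
    rw [← h1, h2', Cs]
    linear_combination (-((l : PowerSeries L) + Ps) * ((k : PowerSeries L) - Ps)) * h3
  rw [c, e, PowerSeries.coeff_mul]
  refine Ideal.sum_mem _ fun x hx => ?_
  have hx' : x.1 + x.2 = r := by simpa using hx
  have hc : ∀ (n : ℕ) (f : PowerSeries L) (i : ℕ),
      PowerSeries.coeff i ((n : PowerSeries L) * f - th f) =
        ((n : L) - i) * PowerSeries.coeff i f := by
    intro n f i
    rw [map_sub, coeff_th, ← map_natCast (PowerSeries.C (R := L)), PowerSeries.coeff_C_mul]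
    ring
  rw [hc, hc, coeff_Hs, coeff_As]
  rcases lt_trichotomy l x.1 with h1 | h1 | h1
  · exact Ideal.mul_mem_right _ _ (Ideal.mul_mem_left _ _ (a_mem h1))
  · simp [h1]
  rcases lt_trichotomy k x.2 with h2 | h2 | h2
  · exact Ideal.mul_mem_left _ _ (Ideal.mul_mem_left _ _ (h_mem h2))
  · simp [h2]
  omega

end Pool.Agent.H800Z.RT
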