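import Pool.Agent.H800Z.RT.Main

/-! Transfer to the presentation with generators `e_1, …, e_l, h_1, …, h_k`. -/

open MvPolynomial Finset Module

namespace Pool.Agent.H800Z.RT

abbrev PP (l k : ℕ) := MvPolynomial (Fin l ⊕ Fin k) ℚ

noncomputable def AP (l k : ℕ) : Polynomial (PP l k) :=
  1 + ∑ i : Fin l, Polynomial.C ((-1 : PP l k) ^ (i.val + 1) * X (Sum.inl i)) *
    Polynomial.X ^ (i.val + 1)

noncomputable def BP (l k : ℕ) : Polynomial (PP l k) :=
  1 + ∑ j : Fin k, Polynomial.C (X (Sum.inr j) : PP l k) * Polynomial.X ^ (j.val + 1)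

noncomputable def IP (l k : ℕ) : Ideal (PP l k) :=
  Ideal.span {q | ∃ n : ℕ, 1 ≤ n ∧ q = (AP l k * BP l k).coeff n}

def wP (l k : ℕ) : Fin l ⊕ Fin k → ℕ :=
  Sum.elim (fun i : Fin l => i.val + 1) (fun j : Fin k => j.val + 1)

lemma coeff_gen {R : Type*} [CommRing R] {n : ℕ} (x : Fin n → R) (s : ℕ) :
    (1 + ∑ i : Fin n, Polynomial.C (x i) * Polynomial.X ^ (i.val + 1)).coeff (s + 1) =
      if hs : s < n then x ⟨s, hs⟩ else 0 := by
  rw [Polynomial.coeff_add, Polynomial.coeff_one, if_neg (by omega), zero_add,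
    Polynomial.finsetSum_coeff]
  simp only [Polynomial.coeff_C_mul_X_pow]
  split_ifs with hs
  · rw [sum_eq_single ⟨s, hs⟩]
    · simp
    · intro b _ hb
      rw [if_neg]
      simp only [Ne, Fin.ext_iff] at hb
      omega
    · simp
  · refine sum_eq_zero fun b _ => if_neg ?_
    have := b.2
    omega

lemma coeff_gen_zero {R : Type*} [CommRing R] {n : ℕ} (x : Fin n → R) :
    (1 + ∑ i : Fin n, Polynomial.C (x i) * Polynomial.X ^ (i.val + 1)).coeff 0 = 1 := by
  rw [Polynomial.coeff_add, Polynomial.coeff_one, if_pos rfl, Polynomial.finsetSum_coeff]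
  simp only [Polynomial.coeff_C_mul_X_pow]
  simp

noncomputable def gt (l k : ℕ) : L →ₐ[ℚ] PP l k :=
  aeval fun s => if hs : s < k then X (Sum.inr ⟨s, hs⟩) else 0

noncomputable def ft (l k : ℕ) : PP l k →ₐ[ℚ] L :=
  aeval (Sum.elim (fun i : Fin l => (-1) ^ (i.val + 1) * a (i.val + 1)) fun j : Fin k => h (j.val + 1))

lemma gt_h (l k n : ℕ) : gt l k (h n) = (BP l k).coeff n := by
  cases n with
  | zero => rw [BP, coeff_gen_zero]; simp [h]
  | succ n => rw [BP, coeff_gen]; simp [h, gt]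

lemma a_zero : a 0 = 1 := by simp [a, As]

lemma ft_AP (l k n : ℕ) : ft l k ((AP l k).coeff n) - a n ∈ I l k := by
  cases n with
  | zero => rw [AP, coeff_gen_zero]; simp [a_zero]
  | succ n =>
    rw [AP, coeff_gen]
    split_ifs with hn
    · have : ft l k ((-1 : PP l k) ^ (n + 1) * X (Sum.inl ⟨n, hn⟩)) = a (n + 1) := by
        simp only [ft, map_mul, map_pow, map_neg, map_one, aeval_X, Sum.elim_inl]
        rw [← mul_assoc, ← mul_pow]; simp
      rw [this, sub_self]; exact Ideal.zero_mem _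
    · simpa using (I l k).neg_mem (a_mem (by omega))

lemma ft_BP (l k n : ℕ) : ft l k ((BP l k).coeff n) - h n ∈ I l k := by
  cases n with
  | zero => rw [BP, coeff_gen_zero]; simp [h]
  | succ n =>
    rw [BP, coeff_gen]
    split_ifs with hn
    · simp [ft]
    · simpa using (I l k).neg_mem (h_mem (by omega))

lemma ft_mem {l k : ℕ} {q : PP l k} (hq : q ∈ IP l k) : ft l k q ∈ I l k := by
  have : IP l k ≤ (I l k).comap (ft l k) := by
    refine Ideal.span_le.2 ?_
    rintro _ ⟨n, hn, rfl⟩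
    rw [SetLike.mem_coe, Ideal.mem_comap, Polynomial.coeff_mul, map_sum]
    have h1 := congrArg (PowerSeries.coeff n) Hs_mul_As
    rw [mul_comm, PowerSeries.coeff_mul, PowerSeries.coeff_one, if_neg (by omega)] at h1
    rw [← sub_zero (∑ _ ∈ _, _), ← h1, ← sum_sub_distrib]
    refine Ideal.sum_mem _ fun x _ => ?_
    rw [map_mul, coeff_Hs, coeff_As]
    have := Ideal.add_mem _ (Ideal.mul_mem_right (ft l k ((BP l k).coeff x.2)) _ (ft_AP l k x.1))
      (Ideal.mul_mem_left _ (a x.1) (ft_BP l k x.2))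
    convert this using 1
    ring
  exact this hq

noncomputable def gq (l k : ℕ) : L →ₐ[ℚ] PP l k ⧸ IP l k :=
  (Ideal.Quotient.mkₐ ℚ (IP l k)).comp (gt l k)

lemma gq_a (l k n : ℕ) : gq l k (a n) = Ideal.Quotient.mk (IP l k) ((AP l k).coeff n) := by
  have h1 : PowerSeries.map (gq l k).toRingHom Hs * PowerSeries.map (gq l k).toRingHom As = 1 := by
    rw [← map_mul, Hs_mul_As, map_one]
  have h2 : PowerSeries.map (Ideal.Quotient.mk (IP l k)) (AP l k : PowerSeries (PP l k)) *
      PowerSeries.map (gq l k).toRingHom Hs = 1 := by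
    have : PowerSeries.map (gq l k).toRingHom Hs =
        PowerSeries.map (Ideal.Quotient.mk (IP l k)) (BP l k : PowerSeries (PP l k)) := by
      ext n
      simp [gq, gt_h]
    rw [this, ← map_mul, ← Polynomial.coe_mul]
    ext n
    rw [PowerSeries.coeff_map, Polynomial.coeff_coe, PowerSeries.coeff_one]
    split_ifs with hn
    · subst hn
      rw [Polynomial.mul_coeff_zero, AP, BP, coeff_gen_zero, coeff_gen_zero]; simp
    · exact Ideal.Quotient.eq_zero_iff_mem.2 (Ideal.subset_span ⟨n, by omega, rfl⟩)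
  have h3 := congrArg (PowerSeries.coeff n) (left_inv_eq_right_inv h2 h1)
  rw [PowerSeries.coeff_map, PowerSeries.coeff_map, Polynomial.coeff_coe] at h3
  exact h3.symm

lemma gq_ft (l k : ℕ) (q : PP l k) : gq l k (ft l k q) = Ideal.Quotient.mkₐ ℚ (IP l k) q := by
  have : (gq l k).comp (ft l k) = Ideal.Quotient.mkₐ ℚ (IP l k) := by
    refine MvPolynomial.algHom_ext ?_
    rintro (i | j)
    · simp only [ft, AlgHom.comp_apply, aeval_X, Sum.elim_inl, map_mul, map_pow, map_neg, map_one]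
      rw [gq_a, AP, coeff_gen, dif_pos i.2]
      simp only [map_mul, map_pow, map_neg, map_one]
      have e : (-1 * -1 : PP l k ⧸ IP l k) = 1 := by ring
      rw [← mul_assoc, ← mul_pow, e, one_pow, one_mul]; rfl
    · simp [ft, gq, gt, h]
  exact congrArg (fun φ => φ q) this

lemma gq_eq_zero {l k : ℕ} {F : L} : gq l k F = 0 ↔ F ∈ I l k := by
  constructor
  · intro h0
    have h1 : gt l k F ∈ IP l k := Ideal.Quotient.eq_zero_iff_mem.1 h0
    have h2 : (Ideal.Quotient.mkₐ ℚ (I l k)).comp ((ft l k).comp (gt l k)) =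
        Ideal.Quotient.mkₐ ℚ (I l k) := by
      refine MvPolynomial.algHom_ext fun s => ?_
      simp only [AlgHom.comp_apply, gt, aeval_X]
      split_ifs with hs
      · simp [ft, h]
      · rw [map_zero, map_zero]
        exact (Ideal.Quotient.eq_zero_iff_mem.2 (h_mem (s := s + 1) (by omega))).symm
    have h3 : Ideal.Quotient.mkₐ ℚ (I l k) (ft l k (gt l k F)) = Ideal.Quotient.mkₐ ℚ (I l k) F :=
      congrArg (fun φ => φ F) h2
    rw [Ideal.Quotient.mkₐ_eq_mk, Ideal.Quotient.eq_zero_iff_mem.2 (ft_mem h1)] at h3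
    exact Ideal.Quotient.eq_zero_iff_mem.1 h3.symm
  · intro hF
    have : I l k ≤ RingHom.ker (gq l k) := by
      refine I_le (fun s hs => ?_) fun s hs => ?_
      · obtain ⟨s, rfl⟩ : ∃ s', s = s' + 1 := ⟨s - 1, by omega⟩
        have : ¬ s < k := by omega
        simp [RingHom.mem_ker, gq, gt, h, this]
      · obtain ⟨s, rfl⟩ : ∃ s', s = s' + 1 := ⟨s - 1, by omega⟩
        rw [RingHom.mem_ker, gq_a, AP, coeff_gen, dif_neg (by omega), map_zero]
    exact this hF

lemma hom_gt (l k : ℕ) {F : L} {d : ℕ} (hF : Hom F d) :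
    IsWeightedHomogeneous (wP l k) (gt l k F) d := by
  refine aeval_hom _ (fun s => ?_) hF
  split_ifs with hs
  · exact isWeightedHomogeneous_X ℚ (wP l k) (Sum.inr ⟨s, hs⟩)
  · exact isWeightedHomogeneous_zero ℚ _ _

lemma hom_ft (l k : ℕ) {q : PP l k} {d : ℕ} (hq : IsWeightedHomogeneous (wP l k) q d) :
    Hom (ft l k q) d := by
  refine aeval_hom _ ?_ hq
  rintro (i | j)
  · have := ((isWeightedHomogeneous_one ℚ wt).neg.pow (i.val + 1)).mul (hom_a (i.val + 1))
    simpa [wP] using this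
  · exact hom_h (j.val + 1)

lemma mem_A_of_hom {m d : ℕ} {F : L} (hF : Hom F d) (hd : d ≤ m) : F ∈ A m := by
  refine hom_induction (w := wt) (fun d f => d ≤ m → f ∈ A m) ?_ ?_ ?_ ?_ hF hd
  · intro d _; exact (A m).zero_mem
  · intro d f g h1 h2 h; exact (A m).add_mem (h1 h) (h2 h)
  · intro r _; exact (A m).algebraMap_mem r
  · intro d f s _ h1 h2
    simp only [wt] at h2
    exact (A m).mul_mem (h1 (by omega)) (X_mem_supported.2 (show s < m by omega))

lemma comp_mem_A {m : ℕ} {F : L} (hF : F ∈ A m) (d : ℕ) :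
    weightedHomogeneousComponent wt d F ∈ A m := by
  have h1 : ∀ F : L, ρ m (weightedHomogeneousComponent wt d F) =
      weightedHomogeneousComponent wt d (ρ m F) := by
    intro F
    induction F using all_induction (w := wt) with
    | hadd f g h1 h2 => simp [h1, h2]
    | hh e f hf =>
      by_cases he : d = e
      · subst he
        rw [hf.weightedHomogeneousComponent_same, (hom_ρ m hf).weightedHomogeneousComponent_same]
      · rw [hf.weightedHomogeneousComponent_ne _ he, (hom_ρ m hf).weightedHomogeneousComponent_ne _ he,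
          map_zero]
  have h2 : ∀ F : L, ρ m F ∈ A m := by
    intro F
    induction F using MvPolynomial.induction_on with
    | C r => simpa [ρ] using (A m).algebraMap_mem r
    | add f g h1 h2 => rw [map_add]; exact (A m).add_mem h1 h2
    | mul_X f s h1 =>
      rw [map_mul]
      refine (A m).mul_mem h1 ?_
      simp only [ρ, aeval_X]
      split_ifs with hs
      · exact X_mem_supported.2 hs
      · exact (A m).zero_mem
  rw [← ρ_of_mem hF, ← h1]
  exact h2 _

lemma sub_eq (l k m d : ℕ) :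
    Subalgebra.toSubmodule
        (Algebra.adjoin ℚ {x : PP l k ⧸ IP l k | ∃ e : ℕ, e ≤ m ∧
          ∃ q ∈ weightedHomogeneousSubmodule ℚ (wP l k) e, x = Ideal.Quotient.mkₐ ℚ (IP l k) q})
      ⊓ Submodule.map (Ideal.Quotient.mkₐ ℚ (IP l k)).toLinearMap
          (weightedHomogeneousSubmodule ℚ (wP l k) d) = (Ad m d).map (gq l k).toLinearMap := by
  apply le_antisymm
  · rintro x ⟨h1, q, hq, rfl⟩
    have h2 : Algebra.adjoin ℚ {x : PP l k ⧸ IP l k | ∃ e : ℕ, e ≤ m ∧
        ∃ q ∈ weightedHomogeneousSubmodule ℚ (wP l k) e, x = Ideal.Quotient.mkₐ ℚ (IP l k) q} ≤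
        (A m).map (gq l k) := by
      refine Algebra.adjoin_le ?_
      rintro _ ⟨e, he, q, hq, rfl⟩
      exact ⟨ft l k q, mem_A_of_hom (hom_ft l k hq) he, gq_ft l k q⟩
    obtain ⟨F, hF, h3⟩ := h2 h1
    have h4 : F - ft l k q ∈ I l k := by
      rw [← gq_eq_zero, map_sub, gq_ft, sub_eq_zero]; exact h3
    have h5 := I_comp h4 d
    rw [map_sub, (hom_ft l k hq).weightedHomogeneousComponent_same, ← gq_eq_zero, map_sub, gq_ft,
      sub_eq_zero] at h5
    exact ⟨_, ⟨weightedHomogeneousComponent_isWeightedHomogeneous d F, comp_mem_A hF d⟩, h5⟩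
  · rintro _ ⟨F, ⟨hF, hA⟩, rfl⟩
    refine ⟨?_, gt l k F, hom_gt l k hF, rfl⟩
    have h2 : A m ≤ (Algebra.adjoin ℚ {x : PP l k ⧸ IP l k | ∃ e : ℕ, e ≤ m ∧
        ∃ q ∈ weightedHomogeneousSubmodule ℚ (wP l k) e,
          x = Ideal.Quotient.mkₐ ℚ (IP l k) q}).comap (gq l k) := by
      refine Algebra.adjoin_le ?_
      rintro _ ⟨s, hs, rfl⟩
      exact Algebra.subset_adjoin ⟨s + 1, hs, gt l k (X s), hom_gt l k (hom_h (s + 1)), rfl⟩
    exact h2 hA

theorem final (l k m : ℕ) (hm : m ≤ min k l) (d : ℕ) :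
    finrank ℚ ↥(Subalgebra.toSubmodule
        (Algebra.adjoin ℚ {x : PP l k ⧸ IP l k | ∃ e : ℕ, e ≤ m ∧
          ∃ q ∈ weightedHomogeneousSubmodule ℚ (wP l k) e, x = Ideal.Quotient.mkₐ ℚ (IP l k) q})
      ⊓ Submodule.map (Ideal.Quotient.mkₐ ℚ (IP l k)).toLinearMap
          (weightedHomogeneousSubmodule ℚ (wP l k) d)) =
    (1 + ∑ i ∈ Icc 1 m, (Polynomial.X : Polynomial ℕ) ^ i * qbin k i *
      ∑ j ∈ range (l - i + 1), (Polynomial.X : Polynomial ℕ) ^ (j * (k - i + 1)) *
        qbin (i + j - 1) j).coeff d := by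
  rw [sub_eq]
  have h1 := rn (gq l k).toLinearMap (Ad m d)
  have h2 : LinearMap.ker (gq l k).toLinearMap = (I l k).restrictScalars ℚ := by
    ext F; simp [gq_eq_zero]
  rw [h2] at h1
  have h3 := rk_add m d l k
  have h4 : finrank ℚ ((Ad m d).map (gq l k).toLinearMap) = rk m d l k := by
    unfold κA ad at h3
    omega
  rw [h4, rk_eq (by omega), target]
  congr 2
  refine sum_congr rfl fun i hi => ?_
  rw [mem_Icc] at hi
  rw [if_pos (by omega), W]

end Pool.Agent.H800Z.RT
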