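import Mathlib

/-! Gaussian binomial coefficients in `ℕ[X]`. -/

open Polynomial Finset

namespace Pool.Agent.H800Z.RT

/-- Gaussian binomials by the Pascal rule. -/
noncomputable def qbin : ℕ → ℕ → ℕ[X]
  | _, 0 => 1
  | 0, _ + 1 => 0
  | n + 1, r + 1 => qbin n (r + 1) + X ^ (n - r) * qbin n r

@[simp] lemma qbin_zero (n : ℕ) : qbin n 0 = 1 := by cases n <;> rfl

@[simp] lemma qbin_zero_succ (r : ℕ) : qbin 0 (r + 1) = 0 := rfl

lemma qbin_R2 (n r : ℕ) : qbin (n + 1) (r + 1) = qbin n (r + 1) + X ^ (n - r) * qbin n r := rfl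

lemma qbin_of_lt : ∀ n r : ℕ, n < r → qbin n r = 0
  | _, 0, h => absurd h (by omega)
  | 0, _ + 1, _ => rfl
  | n + 1, r + 1, h => by
    rw [qbin_R2, qbin_of_lt n (r + 1) (by omega), qbin_of_lt n r (by omega)]; simp

lemma qbin_R1 : ∀ n r : ℕ, qbin (n + 1) (r + 1) = qbin n r + X ^ (r + 1) * qbin n (r + 1)
  | 0, 0 => by simp [qbin_R2]
  | 0, r + 1 => by simp [qbin_R2]
  | n + 1, 0 => by
    have h := qbin_R1 n 0
    have h2 := qbin_R2 n 0
    rw [qbin_R2 (n + 1) 0]
    simp only [qbin_zero, zero_add, pow_one, Nat.sub_zero, mul_one] at *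
    conv_lhs => rw [h]
    conv_rhs => rw [h2]
    ring
  | n + 1, r + 1 => by
    have h1 := qbin_R1 n (r + 1)
    have h2 := qbin_R1 n r
    have h3 := qbin_R2 n (r + 1)
    have h4 := qbin_R2 n r
    rw [qbin_R2 (n + 1) (r + 1)]
    conv_lhs => rw [h1, h2]
    conv_rhs => rw [h3, h4]
    by_cases h : r + 1 ≤ n
    · obtain ⟨c, rfl⟩ := Nat.exists_eq_add_of_le h
      have e1 : r + 1 + c + 1 - (r + 1) = c + 1 := by omega
      have e2 : r + 1 + c - r = c + 1 := by omega
      have e3 : r + 1 + c - (r + 1) = c := by omega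
      rw [e1, e2, e3]; ring
    · rw [qbin_of_lt n (r + 1) (by omega)]
      have e1 : n + 1 - (r + 1) = n - r := by omega
      rw [e1]; ring

lemma qbin_self : ∀ n : ℕ, qbin n n = 1
  | 0 => rfl
  | n + 1 => by rw [qbin_R1, qbin_self n, qbin_of_lt n (n + 1) (by omega)]; simp

lemma qbin_symm : ∀ a b : ℕ, qbin (a + b) a = qbin (a + b) b
  | 0, b => by simp [qbin_self]
  | a + 1, 0 => by simp [qbin_self]
  | a + 1, b + 1 => by
    have h1 := qbin_symm a (b + 1)
    have h2 := qbin_symm (a + 1) b
    have e : a + 1 + (b + 1) = (a + b + 1) + 1 := by ring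
    rw [e, qbin_R1 (a + b + 1) a, qbin_R2 (a + b + 1) b]
    have e1 : a + (b + 1) = a + b + 1 := by ring
    have e2 : a + 1 + b = a + b + 1 := by ring
    rw [e1] at h1; rw [e2] at h2
    have e3 : a + b + 1 - b = a + 1 := by omega
    rw [e3, h1, h2]
termination_by a b => a + b

lemma sum_ge_tri (S : Finset ℕ) : S.card * (S.card - 1) / 2 ≤ ∑ s ∈ S, s := by
  induction S using Finset.induction_on_max with
  | empty => simp
  | insert a S ha ih =>
    have hna : a ∉ S := fun h => lt_irrefl _ (ha a h)
    rw [Finset.card_insert_of_notMem hna, Finset.sum_insert hna]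
    have hc : S.card ≤ a := by
      have : S ⊆ range a := fun x hx => mem_range.2 (ha x hx)
      simpa using card_le_card this
    have h1 := Nat.triangle_succ S.card
    simp only [Nat.add_sub_cancel] at *
    omega

lemma sum_range_powerset (n : ℕ) : ∀ r : ℕ,
    ∑ S ∈ (range n).powersetCard r, (X : ℕ[X]) ^ ((∑ s ∈ S, s) - r * (r - 1) / 2) = qbin n r := by
  induction n with
  | zero =>
    intro r
    cases r with
    | zero => simp
    | succ r => rw [powersetCard_eq_empty.2 (by simp)]; simp
  | succ n ih =>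
    intro r
    cases r with
    | zero => simp
    | succ r =>
      rw [range_add_one, powersetCard_succ_insert (by simp), sum_union, ih, sum_image, qbin_R2,
        ← ih r, mul_sum]
      · congr 1
        refine sum_congr rfl fun S hS => ?_
        rw [mem_powersetCard] at hS
        have hn : n ∉ S := fun h => by simpa using hS.1 h
        rw [sum_insert hn, ← pow_add]
        congr 1
        have h1 := sum_ge_tri S
        rw [hS.2] at h1
        have h2 : r ≤ n := by simpa [hS.2] using card_le_card hS.1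
        have h3 := Nat.triangle_succ r
        simp only [Nat.add_sub_cancel] at *
        omega
      · intro S hS T hT h
        simp only [mem_coe, mem_powersetCard] at hS hT
        have hn : n ∉ S := fun h => by simpa using hS.1 h
        have hn' : n ∉ T := fun h => by simpa using hT.1 h
        rw [← erase_insert hn, ← erase_insert hn']
        have h' : insert n S = insert n T := h
        rw [h']
      · rw [disjoint_left]
        intro S hS hS'
        rw [mem_image] at hS'
        obtain ⟨T, _, rfl⟩ := hS'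
        rw [mem_powersetCard] at hS
        simpa using hS.1 (mem_insert_self n T)

lemma sum_fin_powerset (n r : ℕ) :
    ∑ S ∈ (univ : Finset (Fin n)).powersetCard r,
      (X : ℕ[X]) ^ ((∑ s ∈ S, (s : ℕ)) - r * (r - 1) / 2) = qbin n r := by
  rw [← sum_range_powerset, ← Nat.Iio_eq_range, ← Fin.map_valEmbedding_univ, powersetCard_map,
    sum_map]
  refine sum_congr rfl fun S _ => ?_
  simp [RelEmbedding.coe_toEmbedding, mapEmbedding_apply]

/-- Monotone tuples with entries at most `c`. -/
def Mon (i c : ℕ) : Finset (Fin i → ℕ) :=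
  (Fintype.piFinset fun _ => range (c + 1)).filter Monotone

lemma mem_Mon {i c : ℕ} {g : Fin i → ℕ} : g ∈ Mon i c ↔ (∀ t, g t ≤ c) ∧ Monotone g := by
  simp [Mon]

lemma card_Mon_le (i c e : ℕ) :
    ((Mon i c).filter fun g => ∑ t, g t = e).card ≤ (qbin (c + i) i).coeff e := by
  rw [← sum_range_powerset, finsetSum_coeff]
  simp only [coeff_X_pow]
  rw [sum_boole]
  simp only [Nat.cast_id]
  have hsm : ∀ g : Fin i → ℕ, Monotone g → StrictMono (fun t : Fin i => g t + t) := by
    intro g hg s t hst
    have := hg hst.le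
    have h2 : (s : ℕ) < t := hst
    simp only; omega
  refine card_le_card_of_injOn (fun g => univ.image fun t : Fin i => g t + t) ?_ ?_
  · intro g hg
    simp only [coe_filter, Set.mem_ofPred_eq, mem_Mon] at hg
    obtain ⟨⟨h1, h2⟩, h3⟩ := hg
    simp only [coe_filter, Set.mem_ofPred_eq, mem_powersetCard]
    have hinj := (hsm g h2).injective
    refine ⟨⟨?_, ?_⟩, ?_⟩
    · intro x hx
      rw [mem_image] at hx
      obtain ⟨t, _, rfl⟩ := hx
      have := h1 t
      have := t.2
      simp only [mem_range]; omega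
    · rw [card_image_of_injective _ hinj]; simp
    · rw [sum_image (fun a _ b _ h => hinj h), sum_add_distrib, h3,
        Fin.sum_univ_eq_sum_range (fun t => t) i, Finset.sum_range_id]
      omega
  · intro g hg g' hg' h
    simp only [coe_filter, Set.mem_ofPred_eq, mem_Mon] at hg hg'
    have h1 := hsm g hg.1.2
    have h2 := hsm g' hg'.1.2
    have hr : Set.range (fun t : Fin i => g t + t) = Set.range (fun t : Fin i => g' t + t) := by
      have := congrArg (fun s : Finset ℕ => (s : Set ℕ)) h
      simpa [coe_image] using this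
    have := (h1.range_inj h2).1 hr
    funext t
    have : g t + t = g' t + t := congrFun this t
    omega

lemma card_Mon2_le (i c i' c' e : ℕ) :
    ((Mon i c ×ˢ Mon i' c').filter fun g => ∑ t, g.1 t + ∑ t, g.2 t = e).card ≤
      (qbin (c + i) i * qbin (c' + i') i').coeff e := by
  rw [coeff_mul]
  have : ((Mon i c ×ˢ Mon i' c').filter fun g => ∑ t, g.1 t + ∑ t, g.2 t = e) ⊆
      (antidiagonal e).biUnion fun x => ((Mon i c).filter fun g => ∑ t, g t = x.1) ×ˢ
        ((Mon i' c').filter fun g => ∑ t, g t = x.2) := by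
    intro g hg
    simp only [mem_filter, mem_product] at hg
    simp only [mem_biUnion, HasAntidiagonal.mem_antidiagonal, mem_product, mem_filter]
    exact ⟨(∑ t, g.1 t, ∑ t, g.2 t), hg.2, ⟨hg.1.1, rfl⟩, hg.1.2, rfl⟩
  refine (card_le_card this).trans (card_biUnion_le.trans (sum_le_sum fun x _ => ?_))
  rw [card_product]
  exact Nat.mul_le_mul (card_Mon_le _ _ _) (card_Mon_le _ _ _)

/-- The inner sum of the conjectured formula. -/
noncomputable def W (i c J : ℕ) : ℕ[X] := ∑ j ∈ range (J + 1), X ^ (j * c) * qbin (i + j - 1) j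

lemma W_zero (c J : ℕ) : W 0 c J = 1 := by
  unfold W
  rw [sum_range_succ']
  simp only [zero_add, zero_mul, pow_zero, qbin_zero, mul_one]
  rw [sum_eq_zero, zero_add]
  intro j _
  rw [qbin_of_lt _ _ (by omega), mul_zero]

lemma W_rec (i c J : ℕ) :
    W (i + 1) c J + X ^ (c * (J + 1)) * qbin (i + J) J = X ^ c * W (i + 1) c J + W i (c + 1) J := by
  induction J with
  | zero => simp [W]; ring
  | succ J ih =>
    have e1 : W (i + 1) c (J + 1) = W (i + 1) c J + X ^ ((J + 1) * c) * qbin (i + J + 1) (J + 1) := by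
      unfold W; rw [sum_range_succ]; congr 3; omega
    have e2 : W i (c + 1) (J + 1) =
        W i (c + 1) J + X ^ ((J + 1) * (c + 1)) * qbin (i + J) (J + 1) := by
      unfold W; rw [sum_range_succ]; congr 3
    rw [e1, e2]
    have e3 : i + (J + 1) = i + J + 1 := by ring
    rw [e3]
    have h := qbin_R1 (i + J) J
    have : W (i + 1) c J + X ^ ((J + 1) * c) * qbin (i + J + 1) (J + 1) =
        (W (i + 1) c J + X ^ (c * (J + 1)) * qbin (i + J) J) +
          X ^ ((J + 1) * (c + 1)) * qbin (i + J) (J + 1) := by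
      rw [h]; ring
    conv_lhs => rw [this, ih]
    ring

lemma cancel_aux (b : ℕ[X]) {a c : ℕ[X]} (h : a + b = c + b) : a = c := by
  ext n
  have := congrArg (fun p => p.coeff n) h
  simpa [coeff_add] using this

lemma Y_rec (k i J : ℕ) (hik : i + 1 ≤ k) :
    qbin k (i + 1) * W (i + 1) (k - (i + 1) + 1) J +
        qbin k i * (X ^ ((k - i) * (J + 1)) * qbin (i + J) J) =
      qbin k i * W i (k - i + 1) J + X ^ (i + 1) * (qbin k (i + 1) * W (i + 1) (k - (i + 1) + 1) J) := by
  have e : k - (i + 1) + 1 = k - i := by omega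
  rw [e]
  have h1 := W_rec i (k - i) J
  have h2 : qbin k (i + 1) + X ^ (k - i) * qbin k i = qbin k i + X ^ (i + 1) * qbin k (i + 1) := by
    rw [← qbin_R1, qbin_R2]
  set A := W (i + 1) (k - i) J
  set B := W i (k - i + 1) J
  set E := X ^ ((k - i) * (J + 1)) * qbin (i + J) J
  apply cancel_aux (X ^ (k - i) * qbin k i * A + qbin k i * A)
  calc _ = (qbin k (i + 1) + X ^ (k - i) * qbin k i) * A + qbin k i * (A + E) := by ring
    _ = (qbin k i + X ^ (i + 1) * qbin k (i + 1)) * A + qbin k i * (X ^ (k - i) * A + B) := by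
      rw [h1, h2]
    _ = _ := by ring

/-- A function dominating the partition counts. -/
structure Dom (a : ℕ → ℕ → ℕ) : Prop where
  base : 1 ≤ a 0 0
  step : ∀ m d, a m d + (if m + 1 ≤ d then a (m + 1) (d - (m + 1)) else 0) ≤ a (m + 1) d

lemma Dom.one_le {a : ℕ → ℕ → ℕ} (h : Dom a) (m d : ℕ) : (1 : ℕ[X]).coeff d ≤ a m d := by
  induction m with
  | zero =>
    rw [coeff_one]; split_ifs with h0
    · subst h0; exact h.base
    · omega
  | succ m ih => have := h.step m d; omega

lemma Dom.box_le {a : ℕ → ℕ → ℕ} (h : Dom a) :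
    ∀ L k d : ℕ, (qbin (L + k) L).coeff d ≤ a k d
  | 0, k, d => by simpa using h.one_le k d
  | L + 1, 0, d => by simpa [qbin_self] using h.one_le 0 d
  | L + 1, k + 1, d => by
    have e : L + 1 + (k + 1) = (L + 1 + k) + 1 := by ring
    rw [e, qbin_R2, coeff_add, coeff_X_pow_mul']
    have e1 : L + 1 + k - L = k + 1 := by omega
    rw [e1]
    have h1 := h.box_le (L + 1) k d
    have h3 := h.step k d
    split_ifs with hd
    · have h2 := h.box_le L (k + 1) (d - (k + 1))
      have e2 : L + (k + 1) = L + 1 + k := by ring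
      rw [e2] at h2
      rw [if_pos hd] at h3
      omega
    · rw [if_neg hd] at h3; omega
termination_by L k => L + k

lemma Dom.Y_le {a : ℕ → ℕ → ℕ} (h : Dom a) (k : ℕ) :
    ∀ i, i ≤ k → ∀ J d, (qbin k i * W i (k - i + 1) J).coeff d ≤ a i d := by
  intro i
  induction i with
  | zero => intro _ J d; simpa [W_zero] using h.one_le 0 d
  | succ i ih =>
    intro hi J d
    induction d using Nat.strong_induction_on with
    | _ d ihd =>
      have h1 := congrArg (fun p => p.coeff d) (Y_rec k i J hi)
      simp only [coeff_add, coeff_X_pow_mul'] at h1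
      have h2 := ih (by omega) J d
      have h3 := h.step i d
      split_ifs at h1 h3 with hd
      · have := ihd (d - (i + 1)) (by omega)
        omega
      · omega

/-- The conjectured Hilbert series (for all `ℓ`). -/
noncomputable def target (k m l : ℕ) : ℕ[X] :=
  1 + ∑ i ∈ Icc 1 m, if i ≤ l then X ^ i * qbin k i * W i (k - i + 1) (l - i) else 0

lemma Dom.target_le {a : ℕ → ℕ → ℕ} (h : Dom a) (k l : ℕ) :
    ∀ m, m ≤ k → ∀ d, (target k m l).coeff d ≤ a m d := by
  intro m
  induction m with
  | zero => intro _ d; simpa [target] using h.one_le 0 d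
  | succ m ih =>
    intro hm d
    have e : target k (m + 1) l = target k m l +
        if m + 1 ≤ l then X ^ (m + 1) * qbin k (m + 1) * W (m + 1) (k - (m + 1) + 1) (l - (m + 1))
        else 0 := by
      unfold target
      rw [sum_Icc_succ_top (by omega), add_assoc]
    rw [e, coeff_add]
    have h1 := ih (by omega) d
    have h3 := h.step m d
    split_ifs with hl
    · rw [mul_assoc, coeff_X_pow_mul']
      split_ifs with hd
      · rw [if_pos hd] at h3
        have := h.Y_le k (m + 1) hm (l - (m + 1)) (d - (m + 1))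
        omega
      · omega
    · simp only [coeff_zero]; omega

/-- The summand counting the `i`-th layer of the kernel. -/
noncomputable def layer (k l i : ℕ) : ℕ[X] :=
  if i ≤ l then X ^ (l + (l - i) * (k - i)) * (qbin k i * qbin (l - 1) (i - 1)) else 0

lemma target_succ (k m l : ℕ) :
    target k m (l + 1) = target k m l + ∑ i ∈ Icc 1 m, layer k (l + 1) i := by
  unfold target
  rw [add_assoc, ← sum_add_distrib]
  congr 1
  refine sum_congr rfl fun i hi => ?_
  rw [mem_Icc] at hi
  obtain ⟨i, rfl⟩ : ∃ j, i = j + 1 := ⟨i - 1, by omega⟩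
  unfold layer
  by_cases h1 : i + 1 ≤ l
  · rw [if_pos h1, if_pos (by omega), if_pos (by omega)]
    obtain ⟨c, rfl⟩ := Nat.exists_eq_add_of_le h1
    have e1 : i + 1 + c + 1 - (i + 1) = c + 1 := by omega
    have e2 : i + 1 + c - (i + 1) = c := by omega
    have e3 : i + 1 + c + 1 - 1 = i + (c + 1) := by omega
    rw [e1, e2, e3, Nat.add_sub_cancel, qbin_symm]
    unfold W
    rw [sum_range_succ _ (c + 1)]
    have e4 : i + 1 + (c + 1) - 1 = i + (c + 1) := by omega
    rw [e4]
    ring
  · rw [if_neg h1]
    by_cases h2 : i + 1 ≤ l + 1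
    · have : i = l := by omega
      subst this
      simp [W, qbin_self]
    · rw [if_neg h2, if_neg h2]; simp

lemma target_zero (k m : ℕ) : target k m 0 = 1 := by
  unfold target
  rw [sum_eq_zero, add_zero]
  intro i hi
  rw [mem_Icc] at hi
  rw [if_neg (by omega)]

end Pool.Agent.H800Z.RT
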