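import Pool.Agent.H800Z.RT.Basic
import Pool.Agent.H800Z.RT.Q

/-! Dimension counts for the quotients `L / I l k`; duality. -/

open MvPolynomial Finset Module

namespace Pool.Agent.H800Z.RT

lemma rn {V W : Type*} [AddCommGroup V] [Module ℚ V] [AddCommGroup W] [Module ℚ W]
    (f : V →ₗ[ℚ] W) (P : Submodule ℚ V) [FiniteDimensional ℚ P] :
    finrank ℚ (P.map f) + finrank ℚ ↥(P ⊓ LinearMap.ker f) = finrank ℚ P := by
  have := (f.domRestrict P).finrank_range_add_finrank_ker
  rw [LinearMap.range_domRestrict, LinearMap.ker_domRestrict,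
    ← Submodule.finrank_map_subtype_eq, Submodule.map_comap_subtype] at this
  exact this

noncomputable abbrev Ld (d : ℕ) : Submodule ℚ L := weightedHomogeneousSubmodule ℚ wt d

instance finLd (d : ℕ) : FiniteDimensional ℚ (Ld d) := by
  classical
  have hfin : Set.Finite {γ : ℕ →₀ ℕ | Finsupp.weight wt γ = d} := by
    refine ((range d).finsupp fun _ => range (d + 1)).finite_toSet.subset ?_
    intro γ hγ
    have hγ' : Finsupp.weight wt γ = d := hγ
    have key : ∀ s, γ s * (s + 1) ≤ d := by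
      intro s
      by_cases hs : s ∈ γ.support
      · rw [← hγ', Finsupp.weight_apply, Finsupp.sum]
        exact single_le_sum (f := fun i => γ i • wt i) (fun _ _ => Nat.zero_le _) hs
      · simp [Finsupp.notMem_support_iff.1 hs]
    simp only [mem_coe, mem_finsupp_iff, mem_range]
    refine ⟨fun s hs => ?_, fun s _ => ?_⟩
    · have h1 := key s
      have h2 := Finsupp.mem_support_iff.1 hs
      rw [mem_range]
      have : s + 1 ≤ γ s * (s + 1) := Nat.le_mul_of_pos_left _ (by omega)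
      omega
    · have h1 := key s
      have : γ s ≤ γ s * (s + 1) := Nat.le_mul_of_pos_right _ (by omega)
      omega
  have : Ld d ≤ Submodule.span ℚ ((fun γ => (monomial γ 1 : L)) '' {γ | Finsupp.weight wt γ = d}) := by
    intro f hf
    have hf' : Hom f d := hf
    induction hf' using IsWeightedHomogeneous.induction_on with
    | zero => exact Submodule.zero_mem _
    | add p q hp hq h1 h2 => exact Submodule.add_mem _ (h1 hp) (h2 hq)
    | monomial γ r hr =>
      have : (monomial γ r : L) = r • monomial γ 1 := by simp [smul_monomial]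
      rw [this]
      exact Submodule.smul_mem _ _ (Submodule.subset_span ⟨γ, hr, rfl⟩)
  have hfd := FiniteDimensional.span_of_finite ℚ (hfin.image fun γ => (monomial γ 1 : L))
  exact Submodule.finiteDimensional_of_le this

noncomputable def pr (J : Ideal L) : L →ₗ[ℚ] L ⧸ J := (Ideal.Quotient.mkₐ ℚ J).toLinearMap

lemma pr_eq_zero {J : Ideal L} {f : L} : pr J f = 0 ↔ f ∈ J := Ideal.Quotient.eq_zero_iff_mem

lemma pr_eq {J : Ideal L} {f g : L} : pr J f = pr J g ↔ f - g ∈ J := Ideal.Quotient.eq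

lemma ker_pr (J : Ideal L) : LinearMap.ker (pr J) = J.restrictScalars ℚ := by
  ext f; simp [pr_eq_zero]

noncomputable def t (J : Ideal L) (d : ℕ) : ℕ := finrank ℚ ((Ld d).map (pr J))

noncomputable def κ (J : Ideal L) (d : ℕ) : ℕ := finrank ℚ ↥(Ld d ⊓ J.restrictScalars ℚ)

lemma t_add (J : Ideal L) (d : ℕ) : t J d + κ J d = finrank ℚ (Ld d) := by
  rw [t, κ, ← ker_pr]; exact rn _ _

lemma κ_mono {J J' : Ideal L} (hJ : J ≤ J') (d : ℕ) : κ J d ≤ κ J' d :=
  Submodule.finrank_mono (inf_le_inf_left _ hJ)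

lemma t_anti {J J' : Ideal L} (hJ : J ≤ J') (d : ℕ) : t J' d ≤ t J d := by
  have := t_add J d; have := t_add J' d; have := κ_mono hJ d; omega

lemma mem_of_t_le {J J' : Ideal L} (hJ : J ≤ J') {d : ℕ} (ht : t J d ≤ t J' d) {f : L}
    (hf : Hom f d) (hf' : f ∈ J') : f ∈ J := by
  have h1 := t_add J d; have h2 := t_add J' d
  have h3 : Ld d ⊓ J.restrictScalars ℚ = Ld d ⊓ J'.restrictScalars ℚ :=
    Submodule.eq_of_le_of_finrank_le (inf_le_inf_left _ hJ) (by unfold κ at h1 h2; omega)
  have : f ∈ Ld d ⊓ J'.restrictScalars ℚ := ⟨hf, hf'⟩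
  rw [← h3] at this
  exact this.2

lemma decomp {J : Ideal L} (hJ : ∀ f ∈ J, ∀ n, weightedHomogeneousComponent wt n f ∈ J)
    {x : L} {e : ℕ} (hx : Hom x e) {f : L} {d : ℕ} (hf : Hom f d)
    (hf' : f ∈ J ⊔ Ideal.span {x}) :
    f ∈ J ∨ (e ≤ d ∧ ∃ g, Hom g (d - e) ∧ f - x * g ∈ J) := by
  rw [Submodule.mem_sup] at hf'
  obtain ⟨y, hy, z, hz, hyz⟩ := hf'
  obtain ⟨g, rfl⟩ := Ideal.mem_span_singleton'.1 hz
  have h1 := congrArg (weightedHomogeneousComponent wt d) hyz
  rw [map_add, hf.weightedHomogeneousComponent_same, mul_comm, comp_mul_left hx] at h1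
  split_ifs at h1 with h2
  · right
    refine ⟨h2, _, weightedHomogeneousComponent_isWeightedHomogeneous (d - e) g, ?_⟩
    rw [← h1, add_sub_cancel_right]
    exact hJ y hy d
  · left
    rw [← h1, add_zero]
    exact hJ y hy d

lemma t_step {J : Ideal L} (hJ : ∀ f ∈ J, ∀ n, weightedHomogeneousComponent wt n f ∈ J)
    {x : L} {e : ℕ} (hx : Hom x e) (d : ℕ) :
    t J d = t (J ⊔ Ideal.span {x}) d + if e ≤ d then t (J.colon {x}) (d - e) else 0 := by
  have h1 := t_add J d
  have h2 := t_add (J ⊔ Ideal.span {x}) d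
  have h3 := rn (pr J) (Ld d ⊓ (J ⊔ Ideal.span {x}).restrictScalars ℚ)
  have h4 : Ld d ⊓ (J ⊔ Ideal.span {x}).restrictScalars ℚ ⊓ LinearMap.ker (pr J) =
      Ld d ⊓ J.restrictScalars ℚ := by
    rw [ker_pr, inf_assoc]
    congr 1
    exact inf_eq_right.2 fun f hf => Ideal.mem_sup_left hf
  rw [h4] at h3
  split_ifs with he
  · have h5 : (Ld d ⊓ (J ⊔ Ideal.span {x}).restrictScalars ℚ).map (pr J) =
        (Ld (d - e)).map (pr J ∘ₗ LinearMap.mulLeft ℚ x) := by
      apply le_antisymm
      · rintro _ ⟨f, ⟨hf, hf'⟩, rfl⟩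
        rcases decomp hJ hx hf hf' with h6 | ⟨_, g, hg, h6⟩
        · rw [pr_eq_zero.2 h6]; exact Submodule.zero_mem _
        · exact ⟨g, hg, (pr_eq.2 h6).symm⟩
      · rintro _ ⟨g, hg, rfl⟩
        refine ⟨x * g, ⟨?_, ?_⟩, rfl⟩
        · have := hx.mul (show Hom g (d - e) from hg)
          rwa [Nat.add_sub_cancel' he] at this
        · exact Ideal.mem_sup_right (Ideal.mul_mem_right _ _ (Ideal.subset_span rfl))
    have h6 := rn (pr J ∘ₗ LinearMap.mulLeft ℚ x) (Ld (d - e))
    have h7 : LinearMap.ker (pr J ∘ₗ LinearMap.mulLeft ℚ x) = (J.colon {x}).restrictScalars ℚ := by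
      ext g
      simp [pr_eq_zero, Submodule.mem_colon_singleton, mul_comm]
    rw [h7] at h6
    have h8 := t_add (J.colon {x}) (d - e)
    rw [h5] at h3
    unfold κ at *
    omega
  · have h5 : (Ld d ⊓ (J ⊔ Ideal.span {x}).restrictScalars ℚ).map (pr J) = ⊥ := by
      rw [eq_bot_iff]
      rintro _ ⟨f, ⟨hf, hf'⟩, rfl⟩
      rcases decomp hJ hx hf hf' with h6 | ⟨h6, _⟩
      · rw [pr_eq_zero.2 h6]; exact Submodule.zero_mem _
      · exact absurd h6 he
    rw [h5, finrank_bot] at h3
    unfold κ at *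
    omega

/-- The subalgebra generated by `h 1, …, h m`. -/
noncomputable def A (m : ℕ) : Subalgebra ℚ L := supported ℚ {s | s < m}

noncomputable def Ad (m d : ℕ) : Submodule ℚ L := Ld d ⊓ Subalgebra.toSubmodule (A m)

instance finAd (m d : ℕ) : FiniteDimensional ℚ (Ad m d) := Submodule.finiteDimensional_inf_left _ _

noncomputable def ad (m d : ℕ) : ℕ := finrank ℚ (Ad m d)

noncomputable def ρ (m : ℕ) : L →ₐ[ℚ] L := aeval fun s => if s < m then X s else 0

lemma ρ_of_mem {m : ℕ} {f : L} (hf : f ∈ A m) : ρ m f = f := by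
  have : A m ≤ AlgHom.equalizer (ρ m) (AlgHom.id ℚ L) := by
    refine Algebra.adjoin_le ?_
    rintro _ ⟨s, hs, rfl⟩
    have hs' : s < m := hs
    simp [ρ, hs']
  exact this hf

lemma hom_ρ (m : ℕ) {f : L} {d : ℕ} (hf : Hom f d) : Hom (ρ m f) d := by
  refine aeval_hom _ (fun s => ?_) hf
  split_ifs
  · exact isWeightedHomogeneous_X ℚ wt s
  · exact isWeightedHomogeneous_zero ℚ wt _

lemma A_mono {m m' : ℕ} (hm : m ≤ m') : A m ≤ A m' :=
  supported_mono fun _ hs => lt_of_lt_of_le hs hm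

lemma dom_ad : Dom ad where
  base := by
    unfold ad
    rw [Nat.one_le_iff_ne_zero, Ne, Submodule.finrank_eq_zero]
    intro h0
    have : (1 : L) ∈ Ad 0 0 := ⟨isWeightedHomogeneous_one ℚ wt, (A 0).one_mem⟩
    rw [h0] at this
    simp at this
  step m d := by
    have hle : Ad m d ≤ Ad (m + 1) d := inf_le_inf_left _ (A_mono (by omega))
    split_ifs with hd
    · set Q := (Ad (m + 1) (d - (m + 1))).map (LinearMap.mulLeft ℚ (X m : L)) with hQ
      have hinj : Function.Injective (LinearMap.mulLeft ℚ (X m : L)) :=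
        mul_right_injective₀ (X_ne_zero m)
      have h1 : finrank ℚ Q = ad (m + 1) (d - (m + 1)) :=
        (Submodule.equivMapOfInjective _ hinj _).finrank_eq.symm
      have h2 : Q ≤ Ad (m + 1) d := by
        rintro _ ⟨g, hg, rfl⟩
        refine ⟨?_, ?_⟩
        · have := (isWeightedHomogeneous_X ℚ wt m).mul (show Hom g _ from hg.1)
          rwa [wt, Nat.add_sub_cancel' hd] at this
        · exact (A (m + 1)).mul_mem (X_mem_supported.2 (by simp)) hg.2
      have h3 : Ad m d ⊓ Q = ⊥ := by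
        rw [eq_bot_iff]
        rintro _ ⟨hf, g, _, rfl⟩
        have := ρ_of_mem hf.2
        simp only [LinearMap.mulLeft_apply, map_mul] at this ⊢
        rw [← this]
        simp [ρ]
      have h4 := Submodule.finrank_sup_add_finrank_inf_eq (Ad m d) Q
      rw [h3, finrank_bot] at h4
      have h5 : finrank ℚ ↥(Ad m d ⊔ Q) ≤ ad (m + 1) d := Submodule.finrank_mono (sup_le hle h2)
      calc ad m d + ad (m + 1) (d - (m + 1)) = finrank ℚ (Ad m d) + finrank ℚ Q := by rw [h1]; rfl
        _ = finrank ℚ ↥(Ad m d ⊔ Q) + 0 := h4.symm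
        _ ≤ _ := h5
    · exact Submodule.finrank_mono hle

lemma stable {l k d : ℕ} (hd : d ≤ l) {f : L} (hf : Hom f d) (hA : f ∈ A k) (hI : f ∈ I l k) :
    f = 0 := by
  have key : ∀ g ∈ I l k, ∀ n ≤ l, weightedHomogeneousComponent wt n (ρ k g) = 0 := by
    intro g hg
    induction hg using Submodule.span_induction with
    | mem x hx =>
      intro n hn
      rcases hx with ⟨s, hs, rfl⟩ | ⟨s, hs, rfl⟩
      · obtain ⟨s, rfl⟩ : ∃ s', s = s' + 1 := ⟨s - 1, by omega⟩
        have : ¬ s < k := by omega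
        simp [h, ρ, this]
      · exact (hom_ρ k (hom_a s)).weightedHomogeneousComponent_ne n (by omega)
    | zero => simp
    | add x y _ _ h1 h2 => intro n hn; rw [map_add, map_add, h1 n hn, h2 n hn, add_zero]
    | smul c x _ h1 =>
      intro n hn
      rw [smul_eq_mul, map_mul]
      induction (ρ k c) using all_induction (w := wt) with
      | hadd f g h2 h3 => rw [add_mul, map_add, h2, h3, add_zero]
      | hh e f hf =>
        rw [comp_mul_left hf]
        split_ifs
        · rw [h1 _ (by omega), mul_zero]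
        · rfl
  have := key f hI d hd
  rwa [ρ_of_mem hA, hf.weightedHomogeneousComponent_same] at this

lemma ad_le_t {l k d : ℕ} (hd : d ≤ l) : ad k d ≤ t (I l k) d := by
  have h1 := rn (pr (I l k)) (Ad k d)
  have h2 : Ad k d ⊓ LinearMap.ker (pr (I l k)) = ⊥ := by
    rw [eq_bot_iff]
    rintro f ⟨hf, hf'⟩
    exact stable hd hf.1 hf.2 (pr_eq_zero.1 hf')
  rw [h2, finrank_bot] at h1
  have h3 : finrank ℚ ((Ad k d).map (pr (I l k))) ≤ t (I l k) d :=
    Submodule.finrank_mono (Submodule.map_mono inf_le_left)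
  unfold ad; omega

lemma X_mem_zero_l (k s : ℕ) : (X s : L) ∈ I 0 k := by
  have h1 := congrArg (PowerSeries.coeff (s + 1)) Hs_mul_As
  rw [PowerSeries.coeff_mul, PowerSeries.coeff_one, if_neg (by omega)] at h1
  have hmem : (s + 1, 0) ∈ antidiagonal (s + 1) := by simp
  rw [← add_sum_erase _ _ hmem] at h1
  have h3 : ∑ x ∈ (antidiagonal (s + 1)).erase (s + 1, 0),
      PowerSeries.coeff x.1 Hs * PowerSeries.coeff x.2 As ∈ I 0 k := by
    refine Ideal.sum_mem _ fun x hx => ?_
    rw [mem_erase] at hx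
    have hx' : x.1 + x.2 = s + 1 := by simpa using hx.2
    refine Ideal.mul_mem_left _ _ (a_mem ?_)
    by_contra h5
    exact hx.1 (Prod.ext (by simp; omega) (by simp; omega))
  have h2 := eq_neg_of_add_eq_zero_left h1
  have h4 : PowerSeries.coeff 0 As = 1 := by simp [As]
  simp only [coeff_Hs, h4, h, mul_one] at h2 h3
  rw [h2]
  exact (I 0 k).neg_mem h3

lemma X_mem_base {l k : ℕ} (hlk : l = 0 ∨ k = 0) (s : ℕ) : (X s : L) ∈ I l k := by
  rcases hlk with rfl | rfl
  · exact X_mem_zero_l k s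
  · exact h_mem (s := s + 1) (by omega)

lemma t_base {J : Ideal L} (hJ : ∀ s, X s ∈ J) (d : ℕ) :
    t J d ≤ (1 : Polynomial ℕ).coeff d := by
  rw [Polynomial.coeff_one]
  split_ifs with hd
  · subst hd
    have h1 : Ld 0 ≤ Submodule.span ℚ {1} := by
      intro f hf
      obtain ⟨r, rfl⟩ := hom_zero_eq_C (w := wt) (fun s => by simp [wt]) hf
      exact Submodule.mem_span_singleton.2 ⟨r, by simp [smul_eq_C_mul]⟩
    have h2 := Submodule.finrank_mono h1
    rw [finrank_span_singleton one_ne_zero] at h2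
    have := t_add J 0
    omega
  · have : (Ld d).map (pr J) = ⊥ := by
      rw [eq_bot_iff]
      rintro _ ⟨f, hf, rfl⟩
      rw [pr_eq_zero.2 (hom_mem_ideal hJ hf (by omega))]; exact Submodule.zero_mem _
    rw [t, this, finrank_bot]

lemma le_colon_a (l k : ℕ) : I (l + 1) k ≤ (I (l + 1) (k + 1)).colon {a (l + 1)} := by
  intro f hf
  rw [Submodule.mem_colon_singleton, smul_eq_mul, mul_comm]
  exact mul_a_mem hf

lemma le_colon_h (l k : ℕ) : I l (k + 1) ≤ (I (l + 1) (k + 1)).colon {h (k + 1)} := by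
  intro f hf
  rw [Submodule.mem_colon_singleton, smul_eq_mul, mul_comm]
  exact mul_h_mem hf

lemma t_step_a (l k d : ℕ) : t (I (l + 1) (k + 1)) d = t (I l (k + 1)) d +
    if l + 1 ≤ d then t ((I (l + 1) (k + 1)).colon {a (l + 1)}) (d - (l + 1)) else 0 := by
  rw [I_succ_l l (k + 1)]
  exact t_step (fun f hf n => I_comp hf n) (hom_a _) d

lemma t_step_h (l k d : ℕ) : t (I (l + 1) (k + 1)) d = t (I (l + 1) k) d +
    if k + 1 ≤ d then t ((I (l + 1) (k + 1)).colon {h (k + 1)}) (d - (k + 1)) else 0 := by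
  rw [I_succ_k (l + 1) k]
  exact t_step (fun f hf n => I_comp hf n) (hom_h _) d

lemma box_R1 (l k d : ℕ) : (qbin (l + 1 + (k + 1)) (l + 1)).coeff d =
    (qbin (l + (k + 1)) l).coeff d +
      if l + 1 ≤ d then (qbin (l + 1 + k) (l + 1)).coeff (d - (l + 1)) else 0 := by
  have e : l + 1 + (k + 1) = (l + k + 1) + 1 := by ring
  have e1 : l + (k + 1) = l + k + 1 := by ring
  have e2 : l + 1 + k = l + k + 1 := by ring
  rw [e, e1, e2, qbin_R1, Polynomial.coeff_add, Polynomial.coeff_X_pow_mul']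

lemma box_R2 (l k d : ℕ) : (qbin (l + 1 + (k + 1)) (l + 1)).coeff d =
    (qbin (l + 1 + k) (l + 1)).coeff d +
      if k + 1 ≤ d then (qbin (l + (k + 1)) l).coeff (d - (k + 1)) else 0 := by
  have e : l + 1 + (k + 1) = (l + k + 1) + 1 := by ring
  have e1 : l + (k + 1) = l + k + 1 := by ring
  have e2 : l + 1 + k = l + k + 1 := by ring
  have e3 : l + k + 1 - l = k + 1 := by omega
  rw [e, e1, e2, qbin_R2, Polynomial.coeff_add, Polynomial.coeff_X_pow_mul', e3]

lemma t_le : ∀ l k d : ℕ, t (I l k) d ≤ (qbin (l + k) l).coeff d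
  | 0, k, d => by simpa using t_base (X_mem_base (Or.inl rfl)) d
  | l + 1, 0, d => by simpa [qbin_self] using t_base (X_mem_base (Or.inr rfl)) d
  | l + 1, k + 1, d => by
    rw [t_step_a, box_R1]
    have h1 := t_le l (k + 1) d
    split_ifs with hd
    · have h2 := t_le (l + 1) k (d - (l + 1))
      have h3 := t_anti (le_colon_a l k) (d - (l + 1))
      omega
    · omega
termination_by l k => l + k

lemma t_ge (l k d : ℕ) : (qbin (l + k) l).coeff d ≤ t (I l k) d := by
  have key : ∀ j l : ℕ, d ≤ l + j → (qbin (l + k) l).coeff d ≤ t (I l k) d := by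
    intro j
    induction j with
    | zero => intro l hl; exact (dom_ad.box_le l k d).trans (ad_le_t (by omega))
    | succ j ih =>
      intro l hl
      cases k with
      | zero =>
        by_cases h0 : d = 0
        · exact (dom_ad.box_le l 0 d).trans (ad_le_t (by omega))
        · simp [qbin_self, Polynomial.coeff_one, h0]
      | succ k =>
        have h1 := ih (l + 1) (by omega)
        rw [t_step_a, box_R1] at h1
        split_ifs at h1 with hd
        · have h2 := t_le (l + 1) k (d - (l + 1))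
          have h3 := t_anti (le_colon_a l k) (d - (l + 1))
          omega
        · omega
  exact key d l (by omega)

lemma t_eq (l k d : ℕ) : t (I l k) d = (qbin (l + k) l).coeff d :=
  le_antisymm (t_le l k d) (t_ge l k d)

lemma inj_a {l k d : ℕ} {f : L} (hf : Hom f d) (h1 : a (l + 1) * f ∈ I (l + 1) (k + 1)) :
    f ∈ I (l + 1) k := by
  refine mem_of_t_le (le_colon_a l k) ?_ hf ?_
  · have h2 := t_step_a l k (d + (l + 1))
    rw [t_eq, t_eq, box_R1, if_pos (by omega), if_pos (by omega), Nat.add_sub_cancel] at h2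
    rw [t_eq]; omega
  · rw [Submodule.mem_colon_singleton, smul_eq_mul, mul_comm]; exact h1

lemma inj_h {l k d : ℕ} {f : L} (hf : Hom f d) (h1 : h (k + 1) * f ∈ I (l + 1) (k + 1)) :
    f ∈ I l (k + 1) := by
  refine mem_of_t_le (le_colon_h l k) ?_ hf ?_
  · have h2 := t_step_h l k (d + (k + 1))
    rw [t_eq, t_eq, box_R2, if_pos (by omega), if_pos (by omega), Nat.add_sub_cancel] at h2
    rw [t_eq]; omega
  · rw [Submodule.mem_colon_singleton, smul_eq_mul, mul_comm]; exact h1

lemma decomp_a {l k d : ℕ} {f : L} (hf : Hom f d) (hf' : f ∈ I l k) :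
    f ∈ I (l + 1) k ∨ (l + 1 ≤ d ∧ ∃ g, Hom g (d - (l + 1)) ∧ f - a (l + 1) * g ∈ I (l + 1) k) :=
  decomp (fun _ hf n => I_comp hf n) (hom_a _) hf (by rwa [← I_succ_l])

lemma decomp_h {l k d : ℕ} {f : L} (hf : Hom f d) (hf' : f ∈ I l k) :
    f ∈ I l (k + 1) ∨ (k + 1 ≤ d ∧ ∃ g, Hom g (d - (k + 1)) ∧ f - h (k + 1) * g ∈ I l (k + 1)) :=
  decomp (fun _ hf n => I_comp hf n) (hom_h _) hf (by rwa [← I_succ_k])

lemma mem_big : ∀ (l k : ℕ) {d : ℕ} {f : L}, Hom f d → k * l < d → f ∈ I l k
  | 0, k, d, f, hf, hd => hom_mem_ideal (X_mem_base (Or.inl rfl)) hf (by omega)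
  | l + 1, 0, d, f, hf, hd => hom_mem_ideal (X_mem_base (Or.inr rfl)) hf (by omega)
  | l + 1, k + 1, d, f, hf, hd => by
    have h1 := mem_big l (k + 1) hf (by nlinarith)
    rcases decomp_a hf h1 with h2 | ⟨h2, g, hg, h3⟩
    · exact h2
    · have h4 := mem_big (l + 1) k hg (by
        have : (k + 1) * (l + 1) = k * (l + 1) + (l + 1) := by ring
        omega)
      exact (Submodule.sub_mem_iff_left _ (mul_a_mem h4)).1 h3
termination_by l k => l + k

lemma top_span : ∀ (l k : ℕ) {f : L}, Hom f (k * l) → ∃ r : ℚ, f - r • h k ^ l ∈ I l k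
  | 0, k, f, hf => by
    obtain ⟨r, rfl⟩ := hom_zero_eq_C (w := wt) (fun s => by simp [wt]) hf
    exact ⟨r, by simp [smul_eq_C_mul]⟩
  | l + 1, 0, f, hf => by
    rw [zero_mul] at hf
    obtain ⟨r, rfl⟩ := hom_zero_eq_C (w := wt) (fun s => by simp [wt]) hf
    exact ⟨r, by simp [smul_eq_C_mul, h]⟩
  | l + 1, k + 1, f, hf => by
    have h1 := mem_big (l + 1) k hf (by nlinarith)
    rcases decomp_h hf h1 with h2 | ⟨h2, g, hg, h3⟩
    · exact ⟨0, by simpa using h2⟩
    · have e : (k + 1) * (l + 1) - (k + 1) = (k + 1) * l := by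
        have : (k + 1) * (l + 1) = (k + 1) * l + (k + 1) := by ring
        omega
      rw [e] at hg
      obtain ⟨r, hr⟩ := top_span l (k + 1) hg
      refine ⟨r, ?_⟩
      have := Ideal.add_mem _ h3 (mul_h_mem hr)
      convert this using 1
      simp only [smul_eq_C_mul]; ring

lemma nondeg : ∀ (l k : ℕ) {d : ℕ} {f : L}, Hom f d → f ∉ I l k →
    ∃ g, Hom (f * g) (k * l) ∧ f * g ∉ I l k
  | 0, k, d, f, hf, hd => by
    have : d = 0 := by
      by_contra h0
      exact hd (hom_mem_ideal (X_mem_base (Or.inl rfl)) hf (by omega))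
    subst this
    exact ⟨1, by simpa using hf, by simpa using hd⟩
  | l + 1, 0, d, f, hf, hd => by
    have : d = 0 := by
      by_contra h0
      exact hd (hom_mem_ideal (X_mem_base (Or.inr rfl)) hf (by omega))
    subst this
    exact ⟨1, by simpa using hf, by simpa using hd⟩
  | l + 1, k + 1, d, f, hf, hd => by
    by_cases h1 : f ∈ I (l + 1) k
    · rcases decomp_h hf h1 with h2 | ⟨h2, g, hg, h3⟩
      · exact absurd h2 hd
      · have h4 : g ∉ I l (k + 1) := fun h4 =>
          hd ((Submodule.sub_mem_iff_left _ (mul_h_mem h4)).1 h3)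
        obtain ⟨g', hg', h5⟩ := nondeg l (k + 1) hg h4
        -- take the homogeneous part of `g'`
        have hg0 : g ≠ 0 := fun h0 => h4 (h0 ▸ Ideal.zero_mem _)
        have h6 := comp_mul_left hg g' ((k + 1) * l)
        rw [hg'.weightedHomogeneousComponent_same] at h6
        split_ifs at h6 with h7
        · set g'' := weightedHomogeneousComponent wt ((k + 1) * l - (d - (k + 1))) g'
          have hg'' : Hom g'' _ := weightedHomogeneousComponent_isWeightedHomogeneous _ g'
          refine ⟨g'', ?_, fun h8 => h5 ?_⟩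
          · have := hf.mul hg''
            have e : (k + 1) * (l + 1) = (k + 1) * l + (k + 1) := by ring
            have e2 : d + ((k + 1) * l - (d - (k + 1))) = (k + 1) * (l + 1) := by omega
            rwa [e2] at this
          · refine inj_h hg' ?_
            have := Ideal.sub_mem _ h8 (Ideal.mul_mem_right g'' _ h3)
            convert this using 1
            rw [h6]; ring
        · exact absurd (h6 ▸ Ideal.zero_mem _) h5
    · obtain ⟨g', hg', h5⟩ := nondeg (l + 1) k hf h1
      refine ⟨g' * a (l + 1), ?_, fun h8 => h5 (inj_a hg' ?_)⟩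
      · have := hg'.mul (hom_a (l + 1))
        have e : (k + 1) * (l + 1) = k * (l + 1) + (l + 1) := by ring
        rw [e, ← mul_assoc]; exact this
      · convert h8 using 1; ring
termination_by l k => l + k

/-- Functionals killing `I l k` and concentrated in the top degree. -/
structure Adm (l k : ℕ) (τ : L →ₗ[ℚ] ℚ) : Prop where
  ker : ∀ f ∈ I l k, τ f = 0
  deg : ∀ e f, Hom f e → e ≠ k * l → τ f = 0

lemma exists_tau (l k : ℕ) : ∃ τ : L →ₗ[ℚ] ℚ, Adm l k τ ∧
    ∀ d f, Hom f d → (∀ g, τ (f * g) = 0) → f ∈ I l k := by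
  have key : ∃ τ : L →ₗ[ℚ] ℚ, Adm l k τ ∧ ∀ f, Hom f (k * l) → τ f = 0 → f ∈ I l k := by
    by_cases h0 : h k ^ l ∈ I l k
    · refine ⟨0, ⟨by simp, by simp⟩, fun f hf _ => ?_⟩
      obtain ⟨r, hr⟩ := top_span l k hf
      refine (Submodule.sub_mem_iff_left _ ?_).1 hr
      rw [smul_eq_C_mul]; exact Ideal.mul_mem_left _ _ h0
    · obtain ⟨τ, h1, h2⟩ := Submodule.exists_le_ker_of_notMem
        (p := (I l k).restrictScalars ℚ) (v := h k ^ l) h0
      have hadm : Adm l k (τ ∘ₗ weightedHomogeneousComponent wt (k * l)) := by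
        refine ⟨fun f hf => h2 (I_comp hf _), fun e f hf he => ?_⟩
        rw [LinearMap.comp_apply, hf.weightedHomogeneousComponent_ne _ he.symm, map_zero]
      refine ⟨_, hadm, fun f hf h3 => ?_⟩
      obtain ⟨r, hr⟩ := top_span l k hf
      have h4 := hadm.ker _ hr
      have h5 : Hom (h k ^ l) (k * l) := by
        have := (hom_h k).pow l
        rwa [smul_eq_mul, mul_comm] at this
      rw [map_sub, h3, map_smul, LinearMap.comp_apply, h5.weightedHomogeneousComponent_same] at h4
      have : r = 0 := by simpa [h1] using h4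
      simpa [this] using hr
  obtain ⟨τ, h1, h2⟩ := key
  refine ⟨τ, h1, fun d f hf h3 => ?_⟩
  by_contra h4
  obtain ⟨g, hg, h5⟩ := nondeg l k hf h4
  exact h5 (h2 _ hg (h3 g))

lemma loop_reduce {l k : ℕ} {τ : L →ₗ[ℚ] ℚ} (hτ : Adm l k τ) (r : ℕ)
    (H : ∀ e g, Hom g e → e + r = k * l → τ (D r g - c l k r * g) = 0) (g : L) :
    τ (D r g - c l k r * g) = 0 := by
  induction g using all_induction (w := wt) with
  | hadd f g h1 h2 =>
    have : D r (f + g) - c l k r * (f + g) = (D r f - c l k r * f) + (D r g - c l k r * g) := by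
      rw [map_add]; ring
    rw [this, map_add, h1, h2, add_zero]
  | hh e g hg =>
    by_cases he : e + r = k * l
    · exact H e g hg he
    · refine hτ.deg (e + r) _ ((hom_D r hg).sub ?_) he
      rw [add_comm]; exact (hom_c l k r).mul hg

lemma loop_base {l k : ℕ} (hlk : k * l = 0) {τ : L →ₗ[ℚ] ℚ} (hτ : Adm l k τ) (r : ℕ) (g : L) :
    τ (D r g - c l k r * g) = 0 := by
  refine loop_reduce hτ r (fun e g hg he => ?_) g
  have h1 : e = 0 := by omega
  have h2 : r = 0 := by omega
  subst h1 h2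
  obtain ⟨s, rfl⟩ := hom_zero_eq_C (w := wt) (fun s => by simp [wt]) hg
  have : (l : L) * k = 0 := by rw [mul_comm]; exact_mod_cast congrArg (Nat.cast : ℕ → L) hlk
  simp [c_zero, this]

theorem loop : ∀ (l k : ℕ) {τ : L →ₗ[ℚ] ℚ}, Adm l k τ → ∀ (r : ℕ) (g : L),
    τ (D r g - c l k r * g) = 0
  | 0, k, τ, hτ, r, g => loop_base (by simp) hτ r g
  | l + 1, 0, τ, hτ, r, g => loop_base (by simp) hτ r g
  | l + 1, k + 1, τ, hτ, r, g => by
    by_cases hr : (k + 1) + (l + 1) ≤ r + 1
    · exact hτ.ker _ (Ideal.sub_mem _ (D_mem_big hr (by omega) g)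
        (Ideal.mul_mem_right _ _ (c_mem_big hr)))
    refine loop_reduce hτ r (fun e g hg he => ?_) g
    have hI : ∀ g ∈ I (l + 1) (k + 1), τ (D r g - c (l + 1) (k + 1) r * g) = 0 := fun g hg =>
      hτ.ker _ (Ideal.sub_mem _ (D_mem r hg) (Ideal.mul_mem_left _ _ hg))
    have hh : ∀ g, τ (D r (h (k + 1) * g) - c (l + 1) (k + 1) r * (h (k + 1) * g)) = 0 := by
      intro g
      have adm : Adm l (k + 1) (τ ∘ₗ LinearMap.mulLeft ℚ (h (k + 1))) := by
        refine ⟨fun f hf => hτ.ker _ (mul_h_mem hf), fun e f hf he => ?_⟩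
        refine hτ.deg _ _ ((hom_h (k + 1)).mul hf) ?_
        have : (k + 1) * (l + 1) = (k + 1) * l + (k + 1) := by ring
        omega
      have h1 := loop l (k + 1) adm r g
      have h2 := fld_H.der_mod (I (l + 1) (k + 1)) (k + 1) r
        (fun t ht => by rw [coeff_Hs]; exact h_mem ht)
      rw [coeff_Hs] at h2
      have h3 := hτ.ker _ (Ideal.mul_mem_right g _ h2)
      rw [LinearMap.comp_apply, LinearMap.mulLeft_apply] at h1
      rw [← add_zero (0 : ℚ), ← h1]
      conv_rhs => rw [h1, ← h3]; arg 1; rw [h3, ← h1]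
      rw [← map_add]
      congr 1
      rw [Derivation.leibniz, smul_eq_mul, smul_eq_mul, c_succ_l]
      ring
    have ha : ∀ g, τ (D r (a (l + 1) * g) - c (l + 1) (k + 1) r * (a (l + 1) * g)) = 0 := by
      intro g
      have adm : Adm (l + 1) k (τ ∘ₗ LinearMap.mulLeft ℚ (a (l + 1))) := by
        refine ⟨fun f hf => hτ.ker _ (mul_a_mem hf), fun e f hf he => ?_⟩
        refine hτ.deg _ _ ((hom_a (l + 1)).mul hf) ?_
        have : (k + 1) * (l + 1) = k * (l + 1) + (l + 1) := by ring
        omega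
      have h1 := loop (l + 1) k adm r g
      have h2 := fld_A.der_mod (I (l + 1) (k + 1)) (l + 1) r (fun t ht => a_mem ht)
      rw [coeff_As] at h2
      have h3 := hτ.ker _ (Ideal.mul_mem_right g _ h2)
      rw [LinearMap.comp_apply, LinearMap.mulLeft_apply] at h1
      rw [← add_zero (0 : ℚ), ← h1]
      conv_rhs => rw [h1, ← h3]; arg 1; rw [h3, ← h1]
      rw [← map_add]
      congr 1
      rw [Derivation.leibniz, smul_eq_mul, smul_eq_mul, c_succ_k]
      ring
    have hmem : g ∈ I l k := by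
      refine mem_big l k hg ?_
      have : (k + 1) * (l + 1) = k * l + (k + 1) + (l + 1) - 1 := by
        have : (k + 1) * (l + 1) = k * l + k + l + 1 := by ring
        omega
      omega
    rw [I_succ_l, I_succ_k, Submodule.mem_sup] at hmem
    obtain ⟨y, hy, z, hz, rfl⟩ := hmem
    rw [Submodule.mem_sup] at hy
    obtain ⟨y, hy, z', hz', rfl⟩ := hy
    obtain ⟨u, rfl⟩ := Ideal.mem_span_singleton'.1 hz
    obtain ⟨v, rfl⟩ := Ideal.mem_span_singleton'.1 hz'
    have := congrArg₂ (· + ·) (congrArg₂ (· + ·) (hI y hy) (hh v)) (ha u)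
    simp only [add_zero, ← map_add] at this
    rw [← this]
    congr 1
    rw [mul_comm v, mul_comm u, map_add, map_add]
    ring
termination_by l k => l + k

end Pool.Agent.H800Z.RT
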