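import Mathlib

/-! Generalities on weighted homogeneous polynomials over `ℚ`. -/

open MvPolynomial

namespace Pool.Agent.H800Z.RT

variable {σ : Type*} {w : σ → ℕ}

attribute [local instance] MvPolynomial.weightedGradedAlgebra

lemma comp_mul_left {a : MvPolynomial σ ℚ} {i : ℕ} (ha : IsWeightedHomogeneous w a i)
    (b : MvPolynomial σ ℚ) (n : ℕ) :
    weightedHomogeneousComponent w n (a * b) =
      if i ≤ n then a * weightedHomogeneousComponent w (n - i) b else 0 := by
  have := DirectSum.coe_decompose_mul_of_left_mem (weightedHomogeneousSubmodule ℚ w) (b := b) n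
    (show a ∈ weightedHomogeneousSubmodule ℚ w i from ha)
  rw [← weightedDecomposition.decompose'_apply, ← weightedDecomposition.decompose'_apply]
  exact this

lemma span_comp {S : Set (MvPolynomial σ ℚ)} (hS : ∀ x ∈ S, ∃ i, IsWeightedHomogeneous w x i)
    {f : MvPolynomial σ ℚ} (hf : f ∈ Ideal.span S) (n : ℕ) :
    weightedHomogeneousComponent w n f ∈ Ideal.span S :=
  weightedHomogeneousComponent_mem_of_mem ℚ w
    (Ideal.homogeneous_span (weightedHomogeneousSubmodule ℚ w) S hS) hf n

lemma hom_induction (P : ℕ → MvPolynomial σ ℚ → Prop) (h0 : ∀ d, P d 0)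
    (hadd : ∀ d f g, P d f → P d g → P d (f + g)) (hC : ∀ r : ℚ, P 0 (C r))
    (hX : ∀ d f s, IsWeightedHomogeneous w f d → P d f → P (d + w s) (f * X s))
    {d : ℕ} {f : MvPolynomial σ ℚ} (hf : IsWeightedHomogeneous w f d) : P d f := by
  have key : ∀ (γ : σ →₀ ℕ) (r : ℚ), P (Finsupp.weight w γ) (monomial γ r) := by
    intro γ r
    induction γ using Finsupp.induction₂ with
    | zero => simpa using hC r
    | add_single s n γ _ _ ih =>
      clear * - ih hX
      induction n with
      | zero => simpa using ih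
      | succ n ihn =>
        have h := hX _ _ s (isWeightedHomogeneous_monomial w (γ + Finsupp.single s n) r rfl) ihn
        have e1 : Finsupp.weight w (γ + Finsupp.single s (n + 1)) =
            Finsupp.weight w (γ + Finsupp.single s n) + w s := by
          simp only [map_add, Finsupp.weight_single, smul_eq_mul]; ring
        rw [e1, monomial_add_single, pow_succ, ← mul_assoc, ← monomial_add_single]
        exact h
  induction hf using IsWeightedHomogeneous.induction_on with
  | zero => exact h0 d
  | add p q _ _ hp hq => exact hadd d p q hp hq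
  | monomial γ r hr => rw [← hr]; exact key γ r

lemma all_induction (P : MvPolynomial σ ℚ → Prop)
    (hadd : ∀ f g, P f → P g → P (f + g))
    (hh : ∀ d f, IsWeightedHomogeneous w f d → P f) (f : MvPolynomial σ ℚ) : P f := by
  induction f using MvPolynomial.induction_on' with
  | monomial γ r => exact hh _ _ (isWeightedHomogeneous_monomial w γ r rfl)
  | add p q hp hq => exact hadd p q hp hq

lemma aeval_hom {τ : Type*} {w' : τ → ℕ} (φ : σ → MvPolynomial τ ℚ)
    (hφ : ∀ s, IsWeightedHomogeneous w' (φ s) (w s)) {d : ℕ} {f : MvPolynomial σ ℚ}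
    (hf : IsWeightedHomogeneous w f d) : IsWeightedHomogeneous w' (aeval φ f) d := by
  refine hom_induction (w := w) (fun d f => IsWeightedHomogeneous w' (aeval φ f) d) ?_ ?_ ?_ ?_ hf
  · intro d; simpa using isWeightedHomogeneous_zero ℚ w' d
  · intro d f g h1 h2; rw [map_add]; exact h1.add h2
  · intro r; simpa using isWeightedHomogeneous_C w' r
  · intro d f s _ h1; rw [map_mul, aeval_X]; exact h1.mul (hφ s)

lemma hom_mem_ideal {J : Ideal (MvPolynomial σ ℚ)} (hJ : ∀ s, X s ∈ J) {d : ℕ}
    {f : MvPolynomial σ ℚ} (hf : IsWeightedHomogeneous w f d) (hd : 0 < d) : f ∈ J := by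
  refine hom_induction (w := w) (fun d f => 0 < d → f ∈ J) ?_ ?_ ?_ ?_ hf hd
  · intro d _; exact J.zero_mem
  · intro d f g h1 h2 h; exact J.add_mem (h1 h) (h2 h)
  · intro r h; omega
  · intro d f s _ _ _; exact J.mul_mem_left _ (hJ s)

lemma hom_zero_eq_C (hw : ∀ s, 0 < w s) {f : MvPolynomial σ ℚ}
    (hf : IsWeightedHomogeneous w f 0) : ∃ r : ℚ, f = C r := by
  refine hom_induction (w := w) (fun d f => d = 0 → ∃ r : ℚ, f = C r) ?_ ?_ ?_ ?_ hf rfl
  · intro d _; exact ⟨0, by simp⟩
  · intro d f g h1 h2 h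
    obtain ⟨r, rfl⟩ := h1 h
    obtain ⟨s, rfl⟩ := h2 h
    exact ⟨r + s, by simp⟩
  · intro r _; exact ⟨r, rfl⟩
  · intro d f s _ _ h; have := hw s; omega

end Pool.Agent.H800Z.RT
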