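import Pool.Agent.H800Z.RT.Basic

/-! Insertions of the series `H` and `1/H`: triangularity of the Virasoro operators. -/

open MvPolynomial Finset

namespace Pool.Agent.H800Z.RT

/-- Coefficients indexed by integers. -/
noncomputable def u (U : PowerSeries L) (g : ℤ) : L :=
  if 0 ≤ g then PowerSeries.coeff g.toNat U else 0

lemma u_neg (U : PowerSeries L) {g : ℤ} (hg : g < 0) : u U g = 0 := if_neg (by omega)

lemma u_nat (U : PowerSeries L) (n : ℕ) : u U n = PowerSeries.coeff n U := by simp [u]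

lemma u_add (U V : PowerSeries L) (g : ℤ) : u (U + V) g = u U g + u V g := by
  unfold u; split_ifs <;> simp

lemma u_sub (U V : PowerSeries L) (g : ℤ) : u (U - V) g = u U g - u V g := by
  unfold u; split_ifs <;> simp

lemma u_smul (c : ℚ) (U : PowerSeries L) (g : ℤ) : u (c • U) g = c • u U g := by
  unfold u; split_ifs <;> simp

lemma u_sum {ι : Type*} (s : Finset ι) (U : ι → PowerSeries L) (g : ℤ) :
    u (∑ i ∈ s, U i) g = ∑ i ∈ s, u (U i) g := by
  unfold u; split_ifs <;> simp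

lemma u_th (U : PowerSeries L) (g : ℤ) : u (th U) g = (g : ℚ) • u U g := by
  unfold u; split_ifs with hg
  · obtain ⟨n, rfl⟩ := Int.eq_ofNat_of_zero_le hg
    simp [coeff_th, smul_eq_C_mul]
  · simp

lemma u_X_pow (U : PowerSeries L) (r : ℕ) (g : ℤ) :
    u (PowerSeries.X ^ r * U) g = u U (g - r) := by
  unfold u
  by_cases hg : 0 ≤ g
  · obtain ⟨n, rfl⟩ := Int.eq_ofNat_of_zero_le hg
    rw [if_pos hg, Int.toNat_natCast, PowerSeries.coeff_X_pow_mul']
    by_cases hr : r ≤ n
    · rw [if_pos hr, if_pos (by omega)]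
      congr 2; omega
    · rw [if_neg hr, if_neg (by omega)]
  · rw [if_neg hg, if_neg (by omega)]

lemma D_u (r : ℕ) (U : PowerSeries L) (g : ℤ) : D r (u U g) = u (Dt r U) g := by
  unfold u; split_ifs <;> simp [Dt]

lemma conv (V U : PowerSeries L) {g : ℤ} {N : ℕ} (hN : g < N) :
    ∑ i ∈ range N, PowerSeries.coeff i V * u U (g - i) = u (V * U) g := by
  by_cases hg : 0 ≤ g
  · obtain ⟨n, rfl⟩ := Int.eq_ofNat_of_zero_le hg
    rw [u_nat, PowerSeries.coeff_mul, Nat.sum_antidiagonal_eq_sum_range_succ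
      (fun i j => PowerSeries.coeff i V * PowerSeries.coeff j U)]
    rw [← sum_subset (s₁ := range (n + 1)) (s₂ := range N) (range_subset_range.2 (by omega))]
    · refine sum_congr rfl fun i hi => ?_
      rw [mem_range] at hi
      have : (n : ℤ) - i = ((n - i : ℕ) : ℤ) := by omega
      rw [this, u_nat]
    · intro i _ hi
      rw [mem_range] at hi
      rw [u_neg _ (by omega), mul_zero]
  · rw [u_neg _ (by omega)]
    exact sum_eq_zero fun i _ => by rw [u_neg _ (by omega), mul_zero]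

lemma Fld.newton_u {U : PowerSeries L} {ε : ℚ} (hU : Fld U ε) {g : ℤ} {N : ℕ} (hN : g < N) :
    ∑ i ∈ range N, p i * u U (g - i) = (ε * g) • u U g := by
  have := conv Ps U hN
  rw [hU.newton, u_smul, u_th, smul_smul] at this
  exact this

lemma Fld.D_u {U : PowerSeries L} {ε : ℚ} (hU : Fld U ε) (r : ℕ) {g : ℤ} {N : ℕ} (hN : g < N) :
    D r (u U g) = ε • ∑ j ∈ range N, PowerSeries.coeff j (S r) * u U (g - j) := by
  rw [RT.D_u, hU.der, u_smul, conv _ _ hN, mul_comm]

lemma Fld.bpz {U : PowerSeries L} {ε : ℚ} (hU : Fld U ε) (l k : ℕ) {g : ℤ} {N : ℕ} (hN : g < N) :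
    ∑ r ∈ range N, (c l k r * u U (g - r) - D r (u U (g - r))) =
      ((k - ε * g) * (l + ε * g)) • u U g := by
  rw [sum_sub_distrib]
  have h1 : ∑ r ∈ range N, c l k r * u U (g - r) = u (Cs l k * U) g := conv _ _ hN
  have h2 : ∑ r ∈ range N, D r (u U (g - r)) = ε • u (th Ps * U) g := by
    have : ∀ r : ℕ, D r (u U (g - r)) = ε • u (PowerSeries.X ^ r * S r * U) g := by
      intro r
      rw [RT.D_u, hU.der, u_smul, mul_assoc, u_X_pow, mul_comm]
    simp only [this]
    rw [← smul_sum, ← u_sum, ← sum_mul, ← conv _ _ hN, ← conv _ _ hN]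
    congr 1
    refine sum_congr rfl fun i hi => ?_
    rw [mem_range] at hi
    congr 1
    rw [coeff_th, coeff_Ps, map_sum]
    simp only [PowerSeries.coeff_X_pow_mul', S, PowerSeries.coeff_mk]
    rw [← sum_subset (s₁ := range i) (range_subset_range.2 (by omega))]
    · rw [sum_congr rfl (g := fun _ => p i)]
      · simp
      · intro r hr
        rw [mem_range] at hr
        rw [if_pos hr.le, if_neg (by omega)]
        congr 1; omega
    · intro r _ hr
      rw [mem_range] at hr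
      split_ifs with h3 h4
      · rfl
      · omega
      · rfl
  have h3 : Ps * (Ps * U) = th (th U) - ε • (th Ps * U) := by
    have h4 := congrArg th hU.newton
    rw [th_mul, th_smul] at h4
    have h5 : th (th U) = ε • (th Ps * U + Ps * th U) := by
      rw [h4, smul_smul, hU.sq, one_smul]
    rw [h5, hU.newton, smul_add, mul_smul_comm]
    abel
  have h6 : Cs l k * U = ((l : ℚ) * k) • U + ((k : ℚ) - l) • (Ps * U) - Ps * (Ps * U) := by
    simp only [Cs, Algebra.smul_def, map_mul, map_sub, map_natCast]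
    ring
  rw [h1, h2, h6, h3, hU.newton]
  simp only [u_add, u_sub, u_smul, u_th]
  have hs := hU.sq
  have : ((k : ℚ) - ε * g) * (l + ε * g) = l * k + (k - l) * (ε * g) - g * g := by
    linear_combination (-(g : ℚ) * g) * hs
  rw [this]
  module

/-- The two-point cross term. -/
noncomputable def Sg (U V : PowerSeries L) (N : ℕ) (g g' : ℤ) : L :=
  ∑ r ∈ range N, ∑ j ∈ range N, PowerSeries.coeff j (S r) * (u U (g - r) * u V (g' - j))

lemma Sg_neg_left (U V : PowerSeries L) (N : ℕ) {g : ℤ} (g' : ℤ) (hg : g < 0) :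
    Sg U V N g g' = 0 :=
  sum_eq_zero fun r _ => sum_eq_zero fun j _ => by rw [u_neg U (by omega)]; simp

lemma Sg_neg_right (U V : PowerSeries L) (N : ℕ) (g : ℤ) {g' : ℤ} (hg : g' ≤ 0) :
    Sg U V N g g' = 0 :=
  sum_eq_zero fun r _ => sum_eq_zero fun j _ => by
    by_cases hj : j = 0
    · simp [S, hj]
    · rw [u_neg V (by omega)]; simp

lemma Sg_rec {U V : PowerSeries L} {ε ε' : ℚ} (hU : Fld U ε) (hV : Fld V ε') {N : ℕ} {g g' : ℤ}
    (hg : g < N) (hg' : g' + 1 < N) (hN : 0 < N) :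
    Sg U V N g g' = Sg U V N (g - 1) (g' + 1) + (ε' * g' - ε * g) • (u U g * u V g') := by
  obtain ⟨M, rfl⟩ : ∃ M, N = M + 1 := ⟨N - 1, by omega⟩
  set F : ℕ → ℕ → L := fun r j => u U (g - r) * u V (g' - j) with hF
  have e1 : Sg U V (M + 1) g g' + (ε * g) • (u U g * u V g') =
      ∑ r ∈ range (M + 1), ∑ j ∈ range (M + 1), p (r + j) * F r j := by
    rw [← smul_mul_assoc, ← hU.newton_u hg, sum_mul, Sg, ← sum_add_distrib]
    refine sum_congr rfl fun r _ => ?_
    rw [sum_range_succ', sum_range_succ']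
    simp [S, hF, mul_assoc]
  have e2 : Sg U V (M + 1) (g - 1) (g' + 1) =
      ∑ r ∈ range M, ∑ j ∈ range (M + 1), p (r + 1 + j) * F (r + 1) j := by
    rw [Sg, sum_range_succ]
    have : ∑ j ∈ range (M + 1), PowerSeries.coeff j (S M) *
        (u U (g - 1 - M) * u V (g' + 1 - j)) = 0 :=
      sum_eq_zero fun j _ => by rw [u_neg U (by push_cast at hg; omega)]; simp
    rw [this, add_zero]
    refine sum_congr rfl fun r _ => ?_
    rw [sum_range_succ', sum_range_succ]
    have h0 : u V (g' - M) = 0 := u_neg V (by push_cast at hg'; omega)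
    simp only [S, PowerSeries.coeff_mk, hF, h0, if_true, mul_zero, zero_mul, add_zero]
    refine sum_congr rfl fun j _ => ?_
    rw [if_neg (by omega)]
    have a1 : r + (j + 1) = r + 1 + j := by ring
    have a2 : g - 1 - (r : ℤ) = g - ((r + 1 : ℕ) : ℤ) := by push_cast; ring
    have a3 : g' + 1 - ((j + 1 : ℕ) : ℤ) = g' - j := by push_cast; ring
    rw [a1, a2, a3]
  have e3 : ∑ j ∈ range (M + 1), p (0 + j) * F 0 j = (ε' * g') • (u U g * u V g') := by
    rw [← mul_smul_comm, ← hV.newton_u (N := M + 1) (by omega), mul_sum]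
    refine sum_congr rfl fun j _ => ?_
    simp only [hF, zero_add, Nat.cast_zero, sub_zero]; ring
  rw [sum_range_succ', e3, ← e2] at e1
  rw [sub_smul]
  linear_combination e1

lemma Sg_A {U V : PowerSeries L} {ε ε' : ℚ} (hU : Fld U ε) (hV : Fld V ε') (μ : L →ₗ[ℚ] ℚ)
    {N : ℕ} (n : ℕ) : ∀ g g' : ℤ, g < n → g + g' + 1 < N →
      (∀ t : ℕ, μ (u U (g - t) * u V (g' + t)) = 0) → μ (Sg U V N g g') = 0 := by
  induction n with
  | zero => intro g g' hg _ _; rw [Sg_neg_left _ _ _ _ (by simpa using hg), map_zero]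
  | succ n ih =>
    intro g g' hg hN H
    by_cases h1 : g < 0
    · rw [Sg_neg_left _ _ _ _ h1, map_zero]
    by_cases h2 : g' ≤ 0
    · rw [Sg_neg_right _ _ _ _ h2, map_zero]
    rw [Sg_rec hU hV (by omega) (by omega) (by omega), map_add, map_smul,
      ih (g - 1) (g' + 1) (by push_cast at hg; omega) (by omega)]
    · have := H 0
      simp only [Nat.cast_zero, sub_zero, add_zero] at this
      simp [this]
    · intro t
      have := H (t + 1)
      have a2 : g - 1 - (t : ℤ) = g - ((t + 1 : ℕ) : ℤ) := by push_cast; ring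
      have a3 : g' + 1 + (t : ℤ) = g' + ((t + 1 : ℕ) : ℤ) := by push_cast; ring
      rwa [a2, a3]

lemma Sg_B {U V : PowerSeries L} {ε ε' : ℚ} (hU : Fld U ε) (hV : Fld V ε') (μ : L →ₗ[ℚ] ℚ)
    {N : ℕ} (n : ℕ) : ∀ g g' : ℤ, g' ≤ n → g + g' + 1 < N →
      (∀ t : ℕ, μ (u U (g + (t + 1)) * u V (g' - (t + 1))) = 0) → μ (Sg U V N g g') = 0 := by
  induction n with
  | zero => intro g g' hg _ _; rw [Sg_neg_right _ _ _ _ (by simpa using hg), map_zero]
  | succ n ih =>
    intro g g' hg hN H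
    by_cases h1 : g < 0
    · rw [Sg_neg_left _ _ _ _ h1, map_zero]
    by_cases h2 : g' ≤ 0
    · rw [Sg_neg_right _ _ _ _ h2, map_zero]
    have h3 := Sg_rec hU hV (N := N) (g := g + 1) (g' := g' - 1) (by omega) (by omega) (by omega)
    rw [add_sub_cancel_right, sub_add_cancel] at h3
    have h4 := congrArg μ h3
    rw [ih (g + 1) (g' - 1) (by push_cast at hg; omega) (by omega), map_add, map_smul] at h4
    · have := H 0
      simp only [Nat.cast_zero, zero_add] at this
      simpa [this] using h4.symm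
    · intro t
      have := H (t + 1)
      have a2 : g + 1 + ((t : ℤ) + 1) = g + (((t + 1 : ℕ) : ℤ) + 1) := by push_cast; ring
      have a3 : g' - 1 - ((t : ℤ) + 1) = g' - (((t + 1 : ℕ) : ℤ) + 1) := by push_cast; ring
      rwa [a2, a3]

lemma D_prod {ι : Type*} [DecidableEq ι] (r : ℕ) (s : Finset ι) (f : ι → L) :
    D r (∏ q ∈ s, f q) = ∑ q ∈ s, D r (f q) * ∏ q' ∈ s.erase q, f q' := by
  induction s using Finset.induction_on with
  | empty => simp
  | insert x s hx ih =>
    rw [prod_insert hx, sum_insert hx, Derivation.leibniz, ih, erase_insert hx, smul_eq_mul,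
      smul_eq_mul, mul_sum, add_comm, mul_comm]
    congr 1
    refine sum_congr rfl fun q hq => ?_
    have hne : x ≠ q := fun h => hx (h ▸ hq)
    rw [erase_insert_of_ne hne, prod_insert (fun h => hx (mem_of_mem_erase h))]
    ring

section points

variable {ι : Type*} [Fintype ι] [DecidableEq ι] (U : ι → PowerSeries L)

/-- The monomial in the coefficients of the inserted series. -/
noncomputable def M (δ : ι → ℤ) : L := ∏ q, u (U q) (δ q)

omit [DecidableEq ι] in
lemma M_neg {δ : ι → ℤ} {q : ι} (hq : δ q < 0) : M U δ = 0 :=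
  prod_eq_zero (mem_univ q) (u_neg _ hq)

lemma M_single (δ : ι → ℤ) (q : ι) (x : ℤ) :
    M U (δ + Pi.single q x) = u (U q) (δ q + x) * ∏ q' ∈ univ.erase q, u (U q') (δ q') := by
  rw [M, ← mul_prod_erase _ _ (mem_univ q)]
  congr 1
  · simp
  · refine prod_congr rfl fun q' hq' => ?_
    simp [Pi.single_eq_of_ne (ne_of_mem_erase hq')]

lemma M_single2 (δ : ι → ℤ) {q q' : ι} (hne : q' ≠ q) (x y : ℤ) :
    M U (δ + Pi.single q' y + Pi.single q x) = u (U q) (δ q + x) * u (U q') (δ q' + y) *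
      ∏ q'' ∈ (univ.erase q).erase q', u (U q'') (δ q'') := by
  rw [M_single, ← mul_prod_erase _ _ (mem_erase.2 ⟨hne, mem_univ q'⟩), mul_assoc]
  congr 1
  · simp [Pi.single_eq_of_ne hne.symm]
  congr 1
  · simp
  · refine prod_congr rfl fun q'' hq' => ?_
    simp [Pi.single_eq_of_ne (ne_of_mem_erase hq')]

/-- The Virasoro operator attached to the point `q`. -/
noncomputable def B (l k N : ℕ) (q : ι) (δ : ι → ℤ) : L :=
  ∑ r ∈ range N, (c l k r * M U (δ + Pi.single q (-(r : ℤ))) -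
    D r (M U (δ + Pi.single q (-(r : ℤ)))))

variable {U}

lemma B_eq {ε : ι → ℚ} (hU : ∀ q, Fld (U q) (ε q)) (l k : ℕ) {N : ℕ} (q : ι) {δ : ι → ℤ}
    (hδ : ∀ q', δ q' < N) :
    B U l k N q δ = ((k - ε q * δ q) * (l + ε q * δ q)) • M U δ -
      ∑ q' ∈ univ.erase q, ε q' • (Sg (U q) (U q') N (δ q) (δ q') *
        ∏ q'' ∈ (univ.erase q).erase q', u (U q'') (δ q'')) := by
  have h0 : M U δ = u (U q) (δ q) * ∏ q' ∈ univ.erase q, u (U q') (δ q') := by
    simpa using M_single U δ q 0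
  rw [h0, ← smul_mul_assoc, ← (hU q).bpz l k (hδ q), sum_mul, B]
  simp only [Sg, sum_mul, smul_sum]
  rw [sum_comm (s := univ.erase q), ← sum_sub_distrib]
  refine sum_congr rfl fun r _ => ?_
  rw [M_single, ← sub_eq_add_neg, Derivation.leibniz, D_prod, smul_eq_mul, smul_eq_mul, mul_sum]
  have : ∀ q' ∈ univ.erase q, u (U q) (δ q - r) * (D r (u (U q') (δ q')) *
      ∏ q'' ∈ (univ.erase q).erase q', u (U q'') (δ q'')) =
      ∑ j ∈ range N, ε q' • (PowerSeries.coeff j (S r) * (u (U q) (δ q - r) * u (U q') (δ q' - j)) *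
        ∏ q'' ∈ (univ.erase q).erase q', u (U q'') (δ q'')) := by
    intro q' _
    rw [(hU q').D_u r (hδ q'), smul_sum, sum_mul, mul_sum]
    refine sum_congr rfl fun j _ => ?_
    simp only [smul_eq_C_mul]; ring
  rw [sum_congr rfl this]
  ring

/-- The linear weight used for the induction. -/
def wsum (ω : ι → ℤ) (δ : ι → ℤ) : ℤ := ∑ q, ω q * δ q

lemma wsum_single (ω : ι → ℤ) (δ : ι → ℤ) (q : ι) (x : ℤ) :
    wsum ω (δ + Pi.single q x) = wsum ω δ + ω q * x := by
  simp [wsum, mul_add, sum_add_distrib, Pi.single_apply]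

lemma B_tri {ε : ι → ℚ} (hU : ∀ q, Fld (U q) (ε q)) (l k : ℕ) {N : ℕ} (μ : L →ₗ[ℚ] ℚ)
    (ω : ι → ℤ) (w0 : ℤ) (hφ : ∀ δ, wsum ω δ < w0 → μ (M U δ) = 0) (q : ι) {δ : ι → ℤ}
    (hN : ∑ q', δ q' + 1 < N)
    (hw : wsum ω δ < w0 ∨ (wsum ω δ ≤ w0 ∧ ∀ q', q' ≠ q → ω q < ω q')) :
    μ (B U l k N q δ) = ((k - ε q * δ q) * (l + ε q * δ q)) * μ (M U δ) := by
  by_cases hneg : ∃ q', δ q' < 0
  · obtain ⟨q', hq'⟩ := hneg
    rw [M_neg U hq', map_zero, mul_zero, B, sum_eq_zero, map_zero]
    intro r _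
    rw [M_neg U (q := q')]
    · simp
    · simp only [Pi.add_apply, Pi.single_apply]
      split_ifs <;> omega
  push Not at hneg
  have h1 : ∀ q', δ q' ≤ ∑ q', δ q' := fun q' =>
    single_le_sum (f := δ) (fun i _ => hneg i) (mem_univ q')
  rw [B_eq hU l k q (fun q' => by have := h1 q'; omega), map_sub, map_smul, smul_eq_mul,
    sub_eq_self, map_sum]
  refine sum_eq_zero fun q' hq' => ?_
  have hne : q' ≠ q := ne_of_mem_erase hq'
  have h2 : δ q + δ q' ≤ ∑ q', δ q' := by
    rw [← sum_pair hne.symm]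
    exact sum_le_sum_of_subset_of_nonneg (subset_univ _) fun i _ _ => hneg i
  rw [map_smul]
  set R := ∏ q'' ∈ (univ.erase q).erase q', u (U q'') (δ q'') with hR
  suffices H : (μ ∘ₗ LinearMap.mulRight ℚ R) (Sg (U q) (U q') N (δ q) (δ q')) = 0 by
    rw [LinearMap.comp_apply, LinearMap.mulRight_apply] at H
    rw [H, smul_zero]
  by_cases hω : ω q < ω q'
  · refine Sg_B (hU q) (hU q') _ N _ _ (by have := h1 q'; omega) (by omega) fun t => ?_
    rw [LinearMap.comp_apply, LinearMap.mulRight_apply, sub_eq_add_neg, hR, ← M_single2 U δ hne]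
    apply hφ
    rw [wsum_single, wsum_single]
    have : wsum ω δ ≤ w0 := by rcases hw with h | h; exacts [h.le, h.1]
    nlinarith [Int.natCast_nonneg t]
  · have hw' : wsum ω δ < w0 := by
      rcases hw with h | h
      exacts [h, absurd (h.2 q' hne) hω]
    refine Sg_A (hU q) (hU q') _ N _ _ (by have := h1 q; omega) (by omega) fun t => ?_
    rw [LinearMap.comp_apply, LinearMap.mulRight_apply, sub_eq_add_neg, hR, ← M_single2 U δ hne]
    apply hφ
    rw [wsum_single, wsum_single]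
    nlinarith [Int.natCast_nonneg t]

end points

end Pool.Agent.H800Z.RT
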