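import Pool.Agent.H800Z.RT.Gr
import Pool.Agent.H800Z.RT.Q

/-! Supersymmetric-type polynomials vanishing on all diagonals `y = w`. -/

open MvPolynomial Finset Module

namespace Pool.Agent.H800Z.RT

lemma X_sub_X_dvd {σ : Type*} [DecidableEq σ] (s t : σ) (f : MvPolynomial σ ℚ) :
    X s - X t ∣ f - rename (Function.update id s t) f := by
  induction f using MvPolynomial.induction_on with
  | C r => simp
  | add f g h1 h2 =>
    rw [map_add]
    convert dvd_add h1 h2 using 1; ring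
  | mul_X f x h1 =>
    rw [map_mul, rename_X]
    have h2 : (X s - X t : MvPolynomial σ ℚ) ∣ X x - X (Function.update id s t x) := by
      by_cases hx : x = s
      · subst hx; simp
      · simp [Function.update_of_ne hx]
    convert dvd_add (h1.mul_right (X x)) (h2.mul_left (rename (Function.update id s t) f)) using 1
    ring

lemma prime_X_sub_X {σ : Type*} [DecidableEq σ] {s t : σ} (hst : s ≠ t) :
    Prime (X s - X t : MvPolynomial σ ℚ) := by
  have hne : (X s - X t : MvPolynomial σ ℚ) ≠ 0 := sub_ne_zero.2 fun h => hst (X_injective h)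
  rw [← Ideal.span_singleton_prime hne]
  have : Ideal.span {(X s - X t : MvPolynomial σ ℚ)} =
      RingHom.ker (rename (R := ℚ) (Function.update id s t)).toRingHom := by
    apply le_antisymm
    · rw [Ideal.span_singleton_le_iff_mem, RingHom.mem_ker]
      simp [Function.update_of_ne hst.symm]
    · intro f hf
      have hf' : rename (Function.update id s t) f = 0 := hf
      have := X_sub_X_dvd s t f
      rw [hf', sub_zero] at this
      exact Ideal.mem_span_singleton.2 this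
  rw [this]
  exact RingHom.ker_isPrime _

abbrev Vr (i : ℕ) := Fin (i + 1) ⊕ Fin i

noncomputable def Pi0 (i : ℕ) : MvPolynomial (Vr i) ℚ :=
  ∏ x : Fin (i + 1) × Fin i, (X (Sum.inl x.1) - X (Sum.inr x.2))

lemma lin_ne {i : ℕ} (x : Fin (i + 1) × Fin i) :
    (X (Sum.inl x.1) - X (Sum.inr x.2) : MvPolynomial (Vr i) ℚ) ≠ 0 :=
  (prime_X_sub_X (by simp)).ne_zero

lemma Pi0_ne (i : ℕ) : Pi0 i ≠ 0 := prod_ne_zero_iff.2 fun x _ => lin_ne x

lemma Pi0_dvd {i : ℕ} {f : MvPolynomial (Vr i) ℚ}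
    (hf : ∀ t u, rename (Function.update id (Sum.inl t) (Sum.inr u)) f = 0) : Pi0 i ∣ f := by
  refine Fintype.prod_dvd_of_isRelPrime ?_ fun x => ?_
  · intro x y hxy
    refine (prime_X_sub_X (by simp)).irreducible.isRelPrime_iff_not_dvd.2 ?_
    rintro ⟨g, hg⟩
    have := congrArg (rename (Function.update id (Sum.inl x.1) (Sum.inr x.2 : Vr i))) hg
    simp only [map_sub, rename_X, map_mul, Function.update_self, ne_eq, reduceCtorEq,
      not_false_eq_true, Function.update_of_ne, id_eq, sub_self, zero_mul] at this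
    have h2 := X_injective (sub_eq_zero.1 this)
    by_cases h3 : y.1 = x.1
    · rw [h3, Function.update_self] at h2
      exact hxy (Prod.ext h3.symm (Sum.inr_injective h2))
    · rw [Function.update_of_ne (by simpa using h3)] at h2
      simp at h2
  · simpa [hf] using X_sub_X_dvd (Sum.inl x.1) (Sum.inr x.2 : Vr i) f

lemma degreeOf_X_sub_X {σ : Type*} [DecidableEq σ] {s t : σ} (hst : s ≠ t) (x : σ) :
    degreeOf x (X s - X t : MvPolynomial σ ℚ) = if x = s ∨ x = t then 1 else 0 := by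
  by_cases h1 : x = s
  · subst h1
    rw [if_pos (Or.inl rfl), sub_eq_add_neg, degreeOf_add_eq_of_degreeOf_lt] <;>
      simp [degreeOf_neg, degreeOf_X_of_ne hst]
  by_cases h2 : x = t
  · subst h2
    rw [if_pos (Or.inr rfl), sub_eq_neg_add, degreeOf_add_eq_of_degreeOf_lt] <;>
      simp [degreeOf_neg, degreeOf_X_of_ne h1]
  rw [if_neg (by tauto)]
  have := degreeOf_sub_le x (X s : MvPolynomial σ ℚ) (X t)
  rw [degreeOf_X_of_ne h1, degreeOf_X_of_ne h2] at this
  simpa using this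

lemma degreeOf_Pi0_inl {i : ℕ} (t : Fin (i + 1)) : degreeOf (Sum.inl t) (Pi0 i) = i := by
  rw [Pi0, degreeOf_prod_eq _ _ fun x _ => lin_ne x]
  simp only [degreeOf_X_sub_X (Sum.inl_ne_inr)]
  rw [Fintype.sum_prod_type]
  simp

lemma degreeOf_Pi0_inr {i : ℕ} (t : Fin i) : degreeOf (Sum.inr t) (Pi0 i) = i + 1 := by
  rw [Pi0, degreeOf_prod_eq _ _ fun x _ => lin_ne x]
  simp only [degreeOf_X_sub_X (Sum.inl_ne_inr)]
  rw [Fintype.sum_prod_type]
  simp

lemma hom_Pi0 (i : ℕ) : IsWeightedHomogeneous (fun _ => 1) (Pi0 i) ((i + 1) * i) := by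
  have := IsWeightedHomogeneous.prod (w := fun _ : Vr i => (1 : ℕ)) univ
    (fun x : Fin (i + 1) × Fin i => (X (Sum.inl x.1) - X (Sum.inr x.2) : MvPolynomial (Vr i) ℚ))
    (fun _ => 1) fun x _ => (isWeightedHomogeneous_X ℚ _ _).sub (isWeightedHomogeneous_X ℚ _ _)
  simpa [Pi0] using this

lemma rename_Pi0 {i : ℕ} (π : Equiv.Perm (Fin (i + 1))) (π' : Equiv.Perm (Fin i)) :
    rename (Equiv.sumCongr π π') (Pi0 i) = Pi0 i := by
  rw [Pi0, map_prod]
  conv_rhs => rw [← Equiv.prod_comp (Equiv.prodCongr π π')]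
  simp

lemma weight_one {σ : Type*} [Fintype σ] (γ : σ →₀ ℕ) :
    Finsupp.weight (fun _ => 1) γ = ∑ x, γ x := by
  rw [Finsupp.weight_apply, Finsupp.sum_fintype] <;> simp

/-- The properties of the generating polynomials. -/
structure Good (i k l d : ℕ) (f : MvPolynomial (Vr i) ℚ) : Prop where
  sym : ∀ π π', rename (Equiv.sumCongr π π') f = f
  van : ∀ t u, rename (Function.update id (Sum.inl t) (Sum.inr u)) f = 0
  dy : ∀ γ ∈ f.support, ∀ t, γ (Sum.inl t) < k
  dw : ∀ γ ∈ f.support, ∀ t, γ (Sum.inr t) ≤ l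
  tot : ∀ γ ∈ f.support, ∑ x, γ x + d = k * l

lemma Good.quot {i k l d : ℕ} {g : MvPolynomial (Vr i) ℚ} (hg : Good i k l d (Pi0 i * g))
    {γ : Vr i →₀ ℕ} (hγ : γ ∈ g.support) :
    (∀ t, γ (Sum.inl t) + i < k) ∧ (∀ t, γ (Sum.inr t) + (i + 1) ≤ l) ∧
      ∑ x, γ x + (i + 1) * i + d = k * l := by
  have hg0 : g ≠ 0 := fun h => by simp [h] at hγ
  have hne := mul_ne_zero (Pi0_ne i) hg0
  refine ⟨fun t => ?_, fun t => ?_, ?_⟩
  · have h1 := degreeOf_mul_eq (n := Sum.inl t) (Pi0_ne i) hg0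
    have h2 := monomial_le_degreeOf (Sum.inl t) hγ
    obtain ⟨δ, hδ⟩ := support_nonempty.2 hne
    have h3 : degreeOf (Sum.inl t) (Pi0 i * g) < k :=
      (degreeOf_lt_iff (lt_of_le_of_lt (Nat.zero_le _) (hg.dy δ hδ t))).2 fun γ hγ => hg.dy γ hγ t
    rw [degreeOf_Pi0_inl] at h1
    omega
  · have h1 := degreeOf_mul_eq (n := Sum.inr t) (Pi0_ne i) hg0
    have h2 := monomial_le_degreeOf (Sum.inr t) hγ
    have h3 : degreeOf (Sum.inr t) (Pi0 i * g) < l + 1 :=
      (degreeOf_lt_iff (by omega)).2 fun γ hγ => Nat.lt_succ_of_le (hg.dw γ hγ t)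
    rw [degreeOf_Pi0_inr] at h1
    omega
  · have h1 := comp_mul_left (hom_Pi0 i) g ((i + 1) * i + ∑ x, γ x)
    rw [if_pos (by omega), Nat.add_sub_cancel_left] at h1
    have h2 : weightedHomogeneousComponent (fun _ => 1) (∑ x, γ x) g ≠ 0 := by
      intro h
      have := congrArg (coeff γ) h
      rw [coeff_weightedHomogeneousComponent, if_pos (weight_one γ)] at this
      exact mem_support_iff.1 hγ this
    have h3 := mul_ne_zero (Pi0_ne i) h2
    rw [← h1] at h3
    obtain ⟨δ, hδ⟩ := support_nonempty.2 h3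
    rw [MvPolynomial.mem_support_iff, coeff_weightedHomogeneousComponent, weight_one] at hδ
    split_ifs at hδ with h4
    · have := hg.tot δ (mem_support_iff.2 hδ)
      omega
    · exact absurd rfl hδ

lemma good_bound {i k l d : ℕ} (hik : i + 1 ≤ k) (hl : 1 ≤ l)
    (Q : Submodule ℚ (MvPolynomial (Vr i) ℚ)) (hQ : ∀ f ∈ Q, Good i k l d f) :
    finrank ℚ Q ≤ (layer k l (i + 1)).coeff d := by
  by_cases hil : i + 1 ≤ l
  swap
  · have : Q = ⊥ := by
      rw [eq_bot_iff]
      intro f hf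
      obtain ⟨g, rfl⟩ := Pi0_dvd (hQ f hf).van
      by_cases hg : g = 0
      · simp [hg]
      · obtain ⟨γ, hγ⟩ := support_nonempty.2 hg
        have := ((hQ _ hf).quot hγ).2.1 ⟨0, by omega⟩
        omega
    rw [this, finrank_bot]; exact Nat.zero_le _
  obtain ⟨c, rfl⟩ : ∃ c, k = c + (i + 1) := ⟨k - (i + 1), by omega⟩
  obtain ⟨c', rfl⟩ : ∃ c', l = c' + (i + 1) := ⟨l - (i + 1), by omega⟩
  set E := (Mon (i + 1) c ×ˢ Mon i c').filter
    fun g => ∑ t, g.1 t + ∑ t, g.2 t + (c' + (i + 1) + c' * c) = d with hE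
  have hcard : E.card ≤ (layer (c + (i + 1)) (c' + (i + 1)) (i + 1)).coeff d := by
    rw [layer, if_pos hil, Nat.add_sub_cancel, Nat.add_sub_cancel, Polynomial.coeff_X_pow_mul']
    split_ifs with h
    · refine le_trans (card_le_card ?_) (card_Mon2_le (i + 1) c i c' _)
      intro g hg
      rw [mem_filter] at hg ⊢
      exact ⟨hg.1, by omega⟩
    · rw [Nat.le_zero, card_eq_zero, filter_eq_empty_iff]
      intro g _; omega
  refine le_trans ?_ hcard
  let idx : (Fin (i + 1) → ℕ) × (Fin i → ℕ) → (Vr i →₀ ℕ) := fun g =>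
    Finsupp.equivFunOnFinite.symm (Sum.elim (fun t => c - g.1 t) fun t => c' - g.2 t)
  let ev : MvPolynomial (Vr i) ℚ →ₗ[ℚ] (E → ℚ) := LinearMap.pi fun g => lcoeff ℚ (idx g)
  let Q' := Q.comap (LinearMap.mulLeft ℚ (Pi0 i))
  have hinj : Function.Injective (ev ∘ₗ Q'.subtype) := by
    rw [← LinearMap.ker_eq_bot, eq_bot_iff]
    rintro ⟨g, hg⟩ h0
    have hG : Good i _ _ d (Pi0 i * g) := hQ _ hg
    simp only [Submodule.mem_bot, Submodule.mk_eq_zero]
    by_contra hg0
    obtain ⟨γ, hγ⟩ := support_nonempty.2 hg0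
    obtain ⟨h1, h2, h3⟩ := hG.quot hγ
    let f1 : Fin (i + 1) → ℕ := fun t => c - γ (Sum.inl t)
    let f2 : Fin i → ℕ := fun t => c' - γ (Sum.inr t)
    have hmem : (f1 ∘ Tuple.sort f1, f2 ∘ Tuple.sort f2) ∈ E := by
      rw [hE, mem_filter, mem_product, mem_Mon, mem_Mon]
      refine ⟨⟨⟨fun t => Nat.sub_le _ _, Tuple.monotone_sort f1⟩,
        ⟨fun t => Nat.sub_le _ _, Tuple.monotone_sort f2⟩⟩, ?_⟩
      have e1 : ∑ t, (f1 ∘ Tuple.sort f1) t + ∑ t, γ (Sum.inl t) = (i + 1) * c := by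
        rw [show ∑ t, (f1 ∘ Tuple.sort f1) t = ∑ t, f1 t from Equiv.sum_comp (Tuple.sort f1) f1,
          ← sum_add_distrib, sum_congr rfl (g := fun _ => c)]
        · simp
        · intro t _; have := h1 t; simp only [f1]; omega
      have e2 : ∑ t, (f2 ∘ Tuple.sort f2) t + ∑ t, γ (Sum.inr t) = i * c' := by
        rw [show ∑ t, (f2 ∘ Tuple.sort f2) t = ∑ t, f2 t from Equiv.sum_comp (Tuple.sort f2) f2,
          ← sum_add_distrib, sum_congr rfl (g := fun _ => c')]
        · simp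
        · intro t _; have := h2 t; simp only [f2]; omega
      rw [Fintype.sum_sum_type] at h3
      have e3 : (c + (i + 1)) * (c' + (i + 1)) =
          (i + 1) * c + i * c' + (i + 1) * i + (c' + (i + 1) + c' * c) := by ring
      simp only at e1 e2 ⊢
      omega
    have h4 : coeff (idx (f1 ∘ Tuple.sort f1, f2 ∘ Tuple.sort f2)) g = 0 :=
      congrFun (LinearMap.mem_ker.1 h0) ⟨_, hmem⟩
    have hsym : rename (Equiv.sumCongr (Tuple.sort f1) (Tuple.sort f2)) g = g := by
      have := hG.sym (Tuple.sort f1) (Tuple.sort f2)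
      rw [map_mul, rename_Pi0] at this
      exact mul_left_cancel₀ (Pi0_ne i) this
    have h5 := coeff_rename_mapDomain _ (Equiv.sumCongr (Tuple.sort f1) (Tuple.sort f2)).injective g
      (idx (f1 ∘ Tuple.sort f1, f2 ∘ Tuple.sort f2))
    rw [hsym, h4] at h5
    apply mem_support_iff.1 hγ
    rw [← h5]
    congr 1
    ext x
    rw [Finsupp.mapDomain_equiv_apply]
    rcases x with t | t
    · have := h1 t
      simp [idx, f1]; omega
    · have := h2 t
      simp [idx, f2]; omega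
  have hfd : FiniteDimensional ℚ Q' := FiniteDimensional.of_injective _ hinj
  have h1 := LinearMap.finrank_le_finrank_of_injective hinj
  rw [finrank_fintype_fun_eq_card, Fintype.card_coe] at h1
  have h2 : Q = Q'.map (LinearMap.mulLeft ℚ (Pi0 i)) := by
    apply le_antisymm
    · intro f hf
      obtain ⟨g, rfl⟩ := Pi0_dvd (hQ f hf).van
      exact ⟨g, hf, rfl⟩
    · exact Submodule.map_comap_le _ _
  rw [h2]
  exact (Submodule.finrank_map_le _ _).trans h1

end Pool.Agent.H800Z.RT
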