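import Pool.Agent.H800Z.RT.Ins

/-! The reduction step: a functional satisfying the vertical loop equations is determined by its
values on products of `m` coefficients of `H` and `m - 1` coefficients of `1/H`. -/

open MvPolynomial Finset

namespace Pool.Agent.H800Z.RT

abbrev Pt (m e : ℕ) := Fin (2 * m + 2) ⊕ Fin e

def isE (q : ℕ) : Prop := q ≠ 0 ∧ q % 2 = 0

instance : DecidablePred isE := fun q => inferInstanceAs (Decidable (q ≠ 0 ∧ q % 2 = 0))

def isH {m e : ℕ} : Pt m e → Prop
  | Sum.inl q => ¬ isE q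
  | Sum.inr _ => True

instance {m e : ℕ} : DecidablePred (isH (m := m) (e := e))
  | Sum.inl q => inferInstanceAs (Decidable (¬ isE q))
  | Sum.inr _ => inferInstanceAs (Decidable True)

noncomputable def Uf {m e : ℕ} (q : Pt m e) : PowerSeries L := if isH q then Hs else As

def εf {m e : ℕ} (q : Pt m e) : ℚ := if isH q then 1 else -1

lemma fld_Uf {m e : ℕ} (q : Pt m e) : Fld (Uf q) (εf q) := by
  unfold Uf εf; split_ifs
  exacts [fld_H, fld_A]

def ωf {m e : ℕ} : Pt m e → ℤ
  | Sum.inl q => (q : ℕ)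
  | Sum.inr _ => 1

def sh {m : ℕ} (c : Fin (2 * m + 2)) : ℤ := (((c : ℕ) + 1) / 2 : ℕ)

lemma sh_mono {m : ℕ} : Monotone (sh (m := m)) := by
  intro c d hcd
  have : (c : ℕ) ≤ d := hcd
  simp only [sh]; omega

lemma sh_perm {m : ℕ} (σ : Equiv.Perm (Fin (2 * m + 2))) (hσ : ¬ ∀ q, sh (σ q) = sh q) :
    ∑ q : Fin (2 * m + 2), ((q : ℕ) : ℤ) * sh (σ q) < ∑ q : Fin (2 * m + 2), ((q : ℕ) : ℤ) * sh q := by
  have hmv : Monovary (fun q : Fin (2 * m + 2) => ((q : ℕ) : ℤ)) sh := by
    intro i j hij
    by_contra h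
    have : j ≤ i := by
      simp only [not_le, Nat.cast_lt] at h
      exact le_of_lt h
    exact absurd (sh_mono this) (not_le.2 hij)
  rw [hmv.sum_mul_comp_perm_lt_sum_mul_iff]
  intro h
  apply hσ
  have h1 : Monotone (sh ∘ σ) := by
    intro i j hij
    by_contra h2
    have h3 := h (not_le.1 h2)
    simp only [Nat.cast_le] at h3
    have : i = j := le_antisymm hij h3
    subst this
    exact h2 le_rfl
  have h2 := Tuple.unique_monotone (f := sh) (σ := σ) (τ := 1) h1 (by simpa using sh_mono)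
  intro q
  simpa using congrFun h2 q

/-- The loop equations along vector fields killing `p 1, …, p m`. -/
def Vert (l k m : ℕ) (μ : L →ₗ[ℚ] ℚ) : Prop :=
  ∀ (N : ℕ) (z : ℕ → L), (∀ j, 1 ≤ j → j ≤ m → ∑ r ∈ range N, p (r + j) * z r = 0) →
    ∑ r ∈ range N, μ (c l k r * z r - D r (z r)) = 0

section main

variable {m e : ℕ} (γ : Pt m e → ℤ)

def gg (q : Fin (2 * m + 2)) : ℤ := γ (Sum.inl q) - sh q

noncomputable def wc (c q : Fin (2 * m + 2)) : ℚ :=
  if (c : ℕ) % 2 = 1 then εf (Sum.inl q : Pt m e) * ((gg γ q + sh c : ℤ) : ℚ) else 1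

noncomputable def Mat : Matrix (Fin (2 * m + 2)) (Fin (2 * m + 2)) L :=
  fun c q => wc γ c q • u (Uf (Sum.inl q : Pt m e)) (gg γ q + sh c)

noncomputable def row (r : ℕ) : Fin (2 * m + 2) → L :=
  fun q => u (Uf (Sum.inl q : Pt m e)) (gg γ q - r)

noncomputable def zz (r : ℕ) : L :=
  ((Mat γ).updateRow 0 (row γ r)).det * ∏ q : Fin e, u Hs (γ (Sum.inr q))

def γσ (σ : Equiv.Perm (Fin (2 * m + 2))) : Pt m e → ℤ :=
  Sum.elim (fun q => gg γ q + sh (σ q)) fun q => γ (Sum.inr q)

lemma det_updateRow_lin {n : Type*} [Fintype n] [DecidableEq n] (A : Matrix n n L) (i : n)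
    {ι : Type*} (s : Finset ι) (x : ι → L) (v : ι → n → L) :
    (A.updateRow i (∑ j ∈ s, x j • v j)).det = ∑ j ∈ s, x j * (A.updateRow i (v j)).det := by
  classical
  induction s using Finset.induction_on with
  | empty =>
    simp only [sum_empty]
    exact Matrix.det_eq_zero_of_row_eq_zero i (by simp)
  | insert j s hj ih =>
    rw [sum_insert hj, sum_insert hj, Matrix.det_updateRow_add, ih, Matrix.det_updateRow_smul]

lemma zz_syz {N : ℕ} (hN : ∀ q, γ q < N) (j : ℕ) (h1 : 1 ≤ j) (h2 : j ≤ m + 1) :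
    ∑ r ∈ range N, p (r + j) * zz γ r = 0 := by
  simp only [zz, ← mul_assoc]
  rw [← sum_mul, ← det_updateRow_lin]
  obtain ⟨j, rfl⟩ : ∃ j', j = j' + 1 := ⟨j - 1, by omega⟩
  let c0 : Fin (2 * m + 2) := ⟨2 * j + 1, by omega⟩
  let c1 : ℕ → Fin (2 * m + 2) := fun i => ⟨2 * (j - i), by omega⟩
  have key : ∑ r ∈ range N, p (r + (j + 1)) • row γ r =
      (1 : L) • Mat γ c0 + ∑ i ∈ range j, (-p (i + 1)) • Mat γ (c1 i) := by
    funext q
    simp only [Finset.sum_apply, Pi.add_apply, Pi.smul_apply, smul_eq_mul, one_mul, row, Mat]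
    have hs0 : sh c0 = j + 1 := by simp only [sh, c0]; omega
    have hw0 : wc γ c0 q = εf (Sum.inl q : Pt m e) * ((gg γ q + (j + 1) : ℤ) : ℚ) := by
      rw [wc, if_pos (by simp only [c0]; omega), hs0]
    have hq : gg γ q < N := by
      have := hN (Sum.inl q)
      have h0 : 0 ≤ sh q := by simp only [sh]; omega
      unfold gg; omega
    rw [hw0, hs0, ← (fld_Uf (Sum.inl q : Pt m e)).newton_u (N := (j + 1) + N)
      (by push_cast; omega), sum_range_add, sum_range_succ', p_zero, zero_mul, add_zero,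
      add_right_comm, ← sum_add_distrib]
    rw [sum_eq_zero (s := range j), zero_add]
    · refine sum_congr rfl fun r _ => ?_
      rw [add_comm r]; congr 2; push_cast; ring
    · intro i hi
      rw [mem_range] at hi
      have hs1 : sh (c1 i) = j - i := by simp only [sh, c1]; omega
      rw [wc, if_neg (by simp only [c1]; omega), one_smul, hs1]
      have : gg γ q + ((j : ℤ) + 1) - ((i + 1 : ℕ) : ℤ) = gg γ q + (j - i) := by push_cast; ring
      rw [this]; ring
  rw [key, Matrix.det_updateRow_add, Matrix.det_updateRow_smul, det_updateRow_lin,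
    Matrix.det_updateRow_eq_zero (by simp [c0]), sum_eq_zero]
  · simp
  · intro i hi
    rw [mem_range] at hi
    rw [Matrix.det_updateRow_eq_zero, mul_zero]
    simp only [c1, Ne, Fin.ext_iff, Fin.val_zero]; omega

lemma zz_expand (r : ℕ) : zz γ r = ∑ σ : Equiv.Perm (Fin (2 * m + 2)),
    (((Equiv.Perm.sign σ : ℤ) : ℚ) * ∏ q, wc γ (σ q) q) •
      M Uf (γσ γ σ + Pi.single (Sum.inl (σ.symm 0)) (-(r : ℤ))) := by
  rw [zz, Matrix.det_apply', sum_mul]
  refine sum_congr rfl fun σ _ => ?_
  rw [M, Fintype.prod_sum_type, mul_smul, ← smul_mul_assoc, ← prod_smul, mul_assoc]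
  have h1 : ∀ x : L, (((Equiv.Perm.sign σ : ℤ) : ℤ) : L) * x = ((Equiv.Perm.sign σ : ℤ) : ℚ) • x := by
    intro x; rw [smul_eq_C_mul]; simp
  rw [h1]
  congr 2
  · refine prod_congr rfl fun q _ => ?_
    by_cases hq : σ q = 0
    · have : q = σ.symm 0 := by rw [← hq]; simp
      rw [hq, Matrix.updateRow_self, wc, if_neg (by simp), one_smul, row, ← this]
      congr 1
      simp [γσ, hq, sh, sub_eq_add_neg]
    · have : q ≠ σ.symm 0 := fun h => hq (by rw [h]; simp)
      rw [Matrix.updateRow_ne hq, Mat]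
      simp [γσ, this]
  · refine prod_congr rfl fun q _ => ?_
    simp [γσ, Uf, isH]

lemma block_det (hγ : ∀ q, 0 ≤ γ q) (hH : ∀ q, isH q → 1 ≤ γ q) :
    (Matrix.of fun c q : Fin (2 * m + 2) => if sh c = sh q then wc γ c q else 0).det ≠ 0 := by
  intro h0
  obtain ⟨v, hv, hv0⟩ := Matrix.exists_vecMul_eq_zero_iff.2 h0
  apply hv
  have key : ∀ q, ∑ c, v c * (if sh c = sh q then wc γ c q else 0) = 0 := fun q => by
    simpa [Matrix.vecMul, dotProduct] using congrFun hv0 q
  have hw : ∀ c q : Fin (2 * m + 2), sh c = sh q → (c : ℕ) % 2 = 1 →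
      wc γ c q = εf (Sum.inl q : Pt m e) * γ (Sum.inl q) := by
    intro c q h1 h2
    rw [wc, if_pos h2, gg, h1]; simp
  have hw' : ∀ c q : Fin (2 * m + 2), (c : ℕ) % 2 = 0 → wc γ c q = 1 := by
    intro c q h2
    rw [wc, if_neg (by omega)]
  have hodd : ∀ q : Fin (2 * m + 2), (q : ℕ) % 2 = 1 → isH (Sum.inl q : Pt m e) := by
    intro q hq; simp only [isH, isE]; omega
  have pair : ∀ c1 c2 : Fin (2 * m + 2), (c1 : ℕ) % 2 = 1 → (c2 : ℕ) = c1 + 1 →
      v c1 = 0 ∧ v c2 = 0 := by
    intro c1 c2 h1 h2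
    have hne : c1 ≠ c2 := by simp only [Ne, Fin.ext_iff]; omega
    have hs : sh c1 = sh c2 := by simp only [sh]; omega
    have k1 := key c1
    have k2 := key c2
    rw [Fintype.sum_eq_add c1 c2 hne] at k1 k2
    · rw [if_pos rfl, if_pos hs.symm, hw c1 c1 rfl h1, hw' c2 c1 (by omega), εf,
        if_pos (hodd c1 h1)] at k1
      rw [if_pos rfl, if_pos hs, hw c1 c2 hs h1, hw' c2 c2 (by omega), εf,
        if_neg (by simp only [isH, isE]; omega)] at k2
      have g1 : (1 : ℚ) ≤ γ (Sum.inl c1) := by exact_mod_cast hH _ (hodd c1 h1)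
      have g2 : (0 : ℚ) ≤ γ (Sum.inl c2) := by exact_mod_cast hγ _
      have : v c1 * (γ (Sum.inl c1) + γ (Sum.inl c2)) = 0 := by linear_combination k1 - k2
      have h3 : v c1 = 0 := by
        rcases mul_eq_zero.1 this with h | h
        · exact h
        · linarith
      refine ⟨h3, ?_⟩
      rw [h3] at k1; simpa using k1
    · intro c hc
      rw [if_neg, mul_zero]
      simp only [Ne, Fin.ext_iff] at hc
      simp only [sh]; omega
    · intro c hc
      rw [if_neg, mul_zero]
      simp only [Ne, Fin.ext_iff] at hc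
      simp only [sh]; omega
  funext c
  have hc := c.2
  by_cases h1 : (c : ℕ) = 0
  · have k1 := key c
    rw [Fintype.sum_eq_single c] at k1
    · rw [if_pos rfl, hw' c c (by omega)] at k1; simpa using k1
    · intro c' hc'
      rw [if_neg, mul_zero]
      simp only [Ne, Fin.ext_iff] at hc'
      simp only [sh]; omega
  by_cases h2 : (c : ℕ) = 2 * m + 1
  · have k1 := key c
    rw [Fintype.sum_eq_single c] at k1
    · rw [if_pos rfl, hw c c rfl (by omega), εf, if_pos (hodd c (by omega))] at k1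
      have g1 : (1 : ℚ) ≤ γ (Sum.inl c) := by exact_mod_cast hH _ (hodd c (by omega))
      rcases mul_eq_zero.1 k1 with h | h
      · exact h
      · linarith
    · intro c' hc'
      rw [if_neg, mul_zero]
      have := c'.2
      simp only [Ne, Fin.ext_iff] at hc'
      simp only [sh]; omega
  by_cases h3 : (c : ℕ) % 2 = 1
  · exact (pair c ⟨c + 1, by omega⟩ h3 rfl).1
  · exact (pair ⟨c - 1, by omega⟩ c (by simp only; omega) (by simp only; omega)).2

end main

theorem M_vanish {l k m e : ℕ} {μ : L →ₗ[ℚ] ℚ} (hV : Vert l k (m + 1) μ)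
    (hk : ∀ s g, k ≤ s → μ (h s * g) = 0)
    (h0 : ∀ γ : Pt m e → ℤ, (∃ q, isH q ∧ γ q = 0) → μ (M Uf γ) = 0) (γ : Pt m e → ℤ) :
    μ (M Uf γ) = 0 := by
  have key : ∀ n : ℕ, ∀ γ : Pt m e → ℤ, wsum ωf γ < n → μ (M Uf γ) = 0 := by
    intro n
    induction n with
    | zero =>
      intro γ hγ
      by_cases hneg : ∃ q, γ q < 0
      · obtain ⟨q, hq⟩ := hneg; rw [M_neg _ hq, map_zero]
      push Not at hneg
      have : 0 ≤ wsum ωf γ := sum_nonneg fun q _ => mul_nonneg (by
        rcases q with q | q <;> simp [ωf]) (hneg q)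
      simp only [Nat.cast_zero] at hγ
      omega
    | succ n ih =>
      intro γ hγ
      have hφ : ∀ δ : Pt m e → ℤ, wsum ωf δ < wsum ωf γ → μ (M Uf δ) = 0 := fun δ hδ =>
        ih δ (by push_cast at hγ; omega)
      by_cases hneg : ∃ q, γ q < 0
      · obtain ⟨q, hq⟩ := hneg; rw [M_neg _ hq, map_zero]
      push Not at hneg
      by_cases hz : ∃ q, isH q ∧ γ q = 0
      · exact h0 γ hz
      have hH : ∀ q, isH q → 1 ≤ γ q := fun q hq => by
        have := hneg q
        have : γ q ≠ 0 := fun h => hz ⟨q, hq, h⟩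
        omega
      have hH0 : isH (Sum.inl 0 : Pt m e) := by simp [isH, isE]
      by_cases htop : (k : ℤ) ≤ γ (Sum.inl 0)
      · have := M_single Uf γ (Sum.inl 0) 0
        rw [Pi.single_zero, add_zero, add_zero] at this
        rw [this, Uf, if_pos hH0]
        obtain ⟨s, hs⟩ := Int.eq_ofNat_of_zero_le (hneg (Sum.inl 0))
        rw [hs, u_nat, coeff_Hs]
        exact hk _ _ (by omega)
      set N : ℕ := (∑ q, γ q).toNat + 2 with hNdef
      have hsum : 0 ≤ ∑ q, γ q := sum_nonneg fun q _ => hneg q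
      have hN : ∑ q, γ q + 1 < N := by omega
      have hN' : ∀ q, γ q < N := fun q => by
        have := single_le_sum (f := γ) (fun i _ => hneg i) (mem_univ q)
        omega
      have h1 := hV N (zz γ) (zz_syz γ hN')
      have h2 : ∑ r ∈ range N, μ (c l k r * zz γ r - D r (zz γ r)) =
          ∑ σ : Equiv.Perm (Fin (2 * m + 2)),
            (((Equiv.Perm.sign σ : ℤ) : ℚ) * ∏ q, wc γ (σ q) q) *
              μ (B Uf l k N (Sum.inl (σ.symm 0)) (γσ γ σ)) := by
        simp only [zz_expand, B, map_sum, mul_sum, ← sum_sub_distrib]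
        rw [sum_comm]
        refine sum_congr rfl fun σ _ => sum_congr rfl fun r _ => ?_
        rw [Derivation.map_smul, mul_smul_comm, ← smul_sub, map_smul, smul_eq_mul]
      have h3 : ∀ σ : Equiv.Perm (Fin (2 * m + 2)),
          (((Equiv.Perm.sign σ : ℤ) : ℚ) * ∏ q, wc γ (σ q) q) *
              μ (B Uf l k N (Sum.inl (σ.symm 0)) (γσ γ σ)) =
          (((Equiv.Perm.sign σ : ℤ) : ℚ) *
            ∏ q, (if sh (σ q) = sh q then wc γ (σ q) q else 0)) *
            ((((k : ℚ) - γ (Sum.inl 0)) * (l + γ (Sum.inl 0))) * μ (M Uf γ)) := by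
        intro σ
        by_cases hσ : ∀ q, sh (σ q) = sh q
        · have e1 : γσ γ σ = γ := by
            funext q
            rcases q with q | q
            · simp [γσ, gg, hσ q]
            · rfl
          have e2 : σ.symm 0 = 0 := by
            have := hσ 0
            have h4 : σ 0 = 0 := by
              simp only [sh, Fin.val_zero] at this
              ext; simp only [Fin.val_zero]; omega
            rw [Equiv.symm_apply_eq, h4]
          rw [e1, e2, B_tri fld_Uf l k μ ωf _ hφ _ hN (Or.inr ⟨le_rfl, ?_⟩), εf, if_pos hH0]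
          · simp [hσ]
          · rintro (q | q) hq
            · have : q ≠ 0 := fun h => hq (by rw [h])
              simp only [Ne, Fin.ext_iff, Fin.val_zero] at this
              simp only [ωf, Fin.val_zero]; omega
            · simp [ωf]
        · have hlt : wsum ωf (γσ γ σ) < wsum ωf γ := by
            have := sh_perm σ hσ
            simp only [wsum, Fintype.sum_sum_type, γσ, gg, ωf, Sum.elim_inl, Sum.elim_inr, mul_add,
              mul_sub, sum_add_distrib, sum_sub_distrib]
            omega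
          have hN2 : ∑ q, γσ γ σ q + 1 < N := by
            have := Equiv.sum_comp σ sh
            rw [Fintype.sum_sum_type] at hN
            simp only [Fintype.sum_sum_type, γσ, gg, Sum.elim_inl, Sum.elim_inr,
              sum_add_distrib, sum_sub_distrib]
            omega
          rw [B_tri fld_Uf l k μ ωf _ hφ _ hN2 (Or.inl hlt), hφ _ hlt]
          push Not at hσ
          obtain ⟨q, hq⟩ := hσ
          rw [prod_eq_zero (f := fun q => if sh (σ q) = sh q then wc γ (σ q) q else 0)
            (mem_univ q) (if_neg hq)]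
          simp
      rw [h2, sum_congr rfl fun σ _ => h3 σ, ← sum_mul] at h1
      have h4 := block_det γ hneg hH
      rw [Matrix.det_apply'] at h4
      have h5 := (mul_eq_zero.1 h1).resolve_left h4
      refine (mul_eq_zero.1 h5).resolve_left (mul_ne_zero ?_ ?_)
      · have : ((γ (Sum.inl 0) : ℤ) : ℚ) < k := by exact_mod_cast not_le.1 htop
        linarith
      · have : (1 : ℚ) ≤ γ (Sum.inl 0) := by exact_mod_cast hH _ hH0
        have : (0 : ℚ) ≤ l := Nat.cast_nonneg l
        linarith
  exact key (wsum ωf γ + 1).toNat γ (by omega)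

/-- Span of the `h`'s. -/
noncomputable def HS : Submodule ℚ L := Submodule.span ℚ (Set.range h)

/-- Span of the `a`'s. -/
noncomputable def AS : Submodule ℚ L := Submodule.span ℚ (Set.range a)

lemma prod_mem {ι : Type*} (s : Finset ι) (P : ι → Submodule ℚ L) (x : ι → L)
    (hx : ∀ i ∈ s, x i ∈ P i) : ∏ i ∈ s, x i ∈ ∏ i ∈ s, P i := by
  classical
  induction s using Finset.induction_on with
  | empty => simp [Submodule.one_eq_span]
  | insert j s hj ih =>
    rw [prod_insert hj, prod_insert hj]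
    exact Submodule.mul_mem_mul (hx j (mem_insert_self _ _))
      (ih fun i hi => hx i (mem_insert_of_mem hi))

lemma card_E (m e : ℕ) : #{q : Pt m e | ¬ isH q} = m := by
  rw [card_filter, Fintype.sum_sum_type]
  simp only [isH, not_not, not_true_eq_false, if_false, sum_const_zero, add_zero]
  rw [Fin.sum_univ_eq_sum_range (fun q => if isE q then 1 else 0)]
  induction m with
  | zero => simp [sum_range_succ, isE]
  | succ m ih =>
    have : 2 * (m + 1) + 2 = 2 * m + 2 + 1 + 1 := by ring
    rw [this, sum_range_succ, sum_range_succ, ih, if_pos (by unfold isE; omega),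
      if_neg (by unfold isE; omega)]

lemma card_H (m e : ℕ) : #{q : Pt m e | isH q} = m + 2 + e := by
  have := card_filter_add_card_filter_not (s := (univ : Finset (Pt m e))) (fun q => isH q)
  rw [card_E] at this
  rw [card_univ, Fintype.card_sum, Fintype.card_fin, Fintype.card_fin] at this
  omega

lemma prod_sub {m e : ℕ} (s : Finset (Pt m e)) :
    ∏ q ∈ s, (if isH q then HS else AS) = HS ^ #{q ∈ s | isH q} * AS ^ #{q ∈ s | ¬ isH q} := by
  rw [prod_ite, prod_const, prod_const]

lemma u_mem {m e : ℕ} (q : Pt m e) (g : ℤ) : u (Uf q) g ∈ (if isH q then HS else AS) := by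
  unfold u Uf
  split_ifs
  · rw [coeff_Hs]; exact Submodule.subset_span ⟨_, rfl⟩
  · exact Submodule.zero_mem _
  · exact Submodule.subset_span ⟨_, rfl⟩
  · exact Submodule.zero_mem _

lemma step_vanish {l k m e : ℕ} {μ : L →ₗ[ℚ] ℚ} (hV : Vert l k (m + 1) μ)
    (hk : ∀ s g, k ≤ s → μ (h s * g) = 0)
    (h0 : HS ^ (m + 1 + e) * AS ^ m ≤ LinearMap.ker μ) :
    HS ^ (m + 1 + (e + 1)) * AS ^ m ≤ LinearMap.ker μ := by
  have key := M_vanish (e := e) hV hk (by
    rintro γ ⟨q, hq, hγ⟩
    have := M_single Uf γ q 0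
    rw [Pi.single_zero, add_zero, add_zero, hγ] at this
    have h1 : u (Uf q) 0 = 1 := by
      rw [Uf, if_pos hq]; simpa [h] using u_nat Hs 0
    rw [this, h1, one_mul]
    apply h0
    have h2 := prod_mem (univ.erase q) _ _ (fun q' _ => u_mem q' (γ q'))
    rw [prod_sub, filter_erase, filter_erase, card_erase_of_mem (by simpa using hq), card_H,
      erase_eq_of_notMem (by simpa using hq), card_E] at h2
    have e1 : m + 2 + e - 1 = m + 1 + e := by omega
    rwa [e1] at h2)
  have h1 := prod_sub (m := m) (e := e) univ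
  rw [card_H, card_E] at h1
  have e1 : m + 1 + (e + 1) = m + 2 + e := by omega
  rw [e1, ← h1]
  have h2 : ∀ q : Pt m e, (if isH q then HS else AS) =
      Submodule.span ℚ (Set.range fun n => PowerSeries.coeff n (Uf q)) := by
    intro q
    unfold Uf
    split_ifs
    · simp [HS]
    · rfl
  simp only [h2]
  rw [Submodule.prod_span, Submodule.span_le]
  intro x hx
  rw [Set.mem_fintype_prod] at hx
  obtain ⟨g, hg, rfl⟩ := hx
  choose n hn using hg
  have := key fun q => n q
  rw [M] at this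
  simp only [u_nat] at this
  simp only [← hn]
  exact this

lemma one_mem_HS : (1 : L) ∈ HS := Submodule.subset_span ⟨0, rfl⟩

lemma one_mem_AS : (1 : L) ∈ AS := Submodule.subset_span ⟨0, by simp [a, As]⟩

lemma pow_mono {P : Submodule ℚ L} (hP : (1 : L) ∈ P) {i j : ℕ} (hij : i ≤ j) : P ^ i ≤ P ^ j := by
  induction hij with
  | refl => exact le_rfl
  | step _ ih =>
    refine ih.trans fun x hx => ?_
    rw [pow_succ]
    simpa using Submodule.mul_mem_mul hx hP

theorem all_vanish {l k m : ℕ} {μ : L →ₗ[ℚ] ℚ} (hV : Vert l k (m + 1) μ)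
    (hk : ∀ s g, k ≤ s → μ (h s * g) = 0)
    (h0 : HS ^ (m + 1) * AS ^ m ≤ LinearMap.ker μ) (g : L) : μ g = 0 := by
  have h1 : ∀ e, HS ^ (m + 1 + e) * AS ^ m ≤ LinearMap.ker μ := by
    intro e
    induction e with
    | zero => exact h0
    | succ e ih => exact step_vanish hV hk ih
  have h2 : ∃ R, g ∈ HS ^ R := by
    induction g using MvPolynomial.induction_on with
    | C r => exact ⟨0, by simp [Submodule.mem_one]⟩
    | add f g hf hg =>
      obtain ⟨R, hR⟩ := hf
      obtain ⟨R', hR'⟩ := hg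
      exact ⟨R + R', Submodule.add_mem _ (pow_mono one_mem_HS (by omega) hR)
        (pow_mono one_mem_HS (by omega) hR')⟩
    | mul_X f s hf =>
      obtain ⟨R, hR⟩ := hf
      refine ⟨R + 1, ?_⟩
      rw [pow_succ]
      exact Submodule.mul_mem_mul hR (Submodule.subset_span ⟨s + 1, rfl⟩)
  obtain ⟨R, hR⟩ := h2
  apply h1 R
  have h3 : (1 : L) ∈ AS ^ m := pow_mono one_mem_AS (Nat.zero_le m) (by simp [Submodule.one_eq_span])
  simpa using Submodule.mul_mem_mul (pow_mono one_mem_HS (by omega : R ≤ m + 1 + R) hR) h3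

end Pool.Agent.H800Z.RT
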