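import Pool.Agent.H800Z.RT.Dim
import Pool.Agent.H800Z.RT.Red
import Pool.Agent.H800Z.RT.Poly

/-! The Hilbert function of the image of `A m` in `L / I l k`. -/

open MvPolynomial Finset Module

namespace Pool.Agent.H800Z.RT

lemma exists_phi {m : ℕ} {F : L} (hF : F ∈ A m) :
    ∃ φ : ℕ → L, ∀ r, D r F = ∑ j ∈ Icc 1 m, p (r + j) * φ j := by
  induction hF using Algebra.adjoin_induction with
  | mem x hx =>
    obtain ⟨s, hs, rfl⟩ := hx
    have hs' : s < m := hs
    refine ⟨fun j => u Hs ((s + 1 : ℕ) - (j : ℤ)), fun r => ?_⟩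
    have := fld_H.D_u r (g := (s + 1 : ℕ)) (N := m + 1) (by push_cast; omega)
    rw [u_nat, coeff_Hs, one_smul, h, range_eq_Ico, sum_eq_sum_Ico_succ_bot (by omega)] at this
    rw [this]
    simp only [S, PowerSeries.coeff_mk, if_true, zero_mul, zero_add]
    refine sum_congr rfl fun j hj => ?_
    rw [mem_Icc] at hj
    rw [if_neg (by omega)]
  | algebraMap r => exact ⟨0, fun r => by simp⟩
  | add x y _ _ h1 h2 =>
    obtain ⟨φ, h1⟩ := h1
    obtain ⟨ψ, h2⟩ := h2
    exact ⟨φ + ψ, fun r => by simp [h1, h2, mul_add, sum_add_distrib]⟩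
  | mul x y _ _ h1 h2 =>
    obtain ⟨φ, h1⟩ := h1
    obtain ⟨ψ, h2⟩ := h2
    refine ⟨fun j => x * ψ j + y * φ j, fun r => ?_⟩
    rw [Derivation.leibniz, h1, h2, smul_eq_mul, smul_eq_mul, mul_sum, mul_sum, ← sum_add_distrib]
    exact sum_congr rfl fun j _ => by ring

lemma vert_of_mem {l k m : ℕ} {τ : L →ₗ[ℚ] ℚ} (hτ : Adm l k τ) {F : L} (hF : F ∈ A m) :
    Vert l k m (τ ∘ₗ LinearMap.mulLeft ℚ F) := by
  obtain ⟨φ, hφ⟩ := exists_phi hF
  intro N z hz
  have h1 : ∀ r, (τ ∘ₗ LinearMap.mulLeft ℚ F) (c l k r * z r - D r (z r)) = τ (D r F * z r) := by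
    intro r
    have := loop l k hτ r (F * z r)
    rw [LinearMap.comp_apply, LinearMap.mulLeft_apply, ← sub_eq_zero, ← map_sub, ← neg_eq_zero,
      ← map_neg, ← this]
    congr 1
    rw [Derivation.leibniz, smul_eq_mul, smul_eq_mul]; ring
  simp only [h1, hφ, sum_mul]
  rw [← map_sum, sum_comm, sum_eq_zero, map_zero]
  intro j hj
  rw [mem_Icc] at hj
  have := congrArg (· * φ j) (hz j hj.1 hj.2)
  simp only [sum_mul, zero_mul] at this
  rw [← this]
  exact sum_congr rfl fun r _ => by ring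

lemma trunc_mul_mem (l k : ℕ) (x : ℚ) :
    (∑ n ∈ range (k + 1), x ^ n • h n) * (∑ n ∈ range (l + 1), x ^ n • a n) - 1 ∈ I l k := by
  have e : ∀ (U : PowerSeries L) (k : ℕ), ∑ n ∈ range (k + 1), x ^ n • PowerSeries.coeff n U =
      (PowerSeries.trunc (k + 1) U).eval (C x) := by
    intro U k
    rw [Polynomial.eval_eq_sum_range' (PowerSeries.natDegree_trunc_lt U k)]
    refine sum_congr rfl fun n hn => ?_
    rw [PowerSeries.coeff_trunc, if_pos (mem_range.1 hn), smul_eq_C_mul, map_pow, mul_comm]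
  have e1 := e Hs k
  have e2 := e As l
  simp only [coeff_Hs, coeff_As] at e1 e2
  rw [e1, e2, ← Polynomial.eval_mul, ← Polynomial.eval_one (x := (C x : L)), ← Polynomial.eval_sub,
    Polynomial.eval_eq_sum_range]
  refine Ideal.sum_mem _ fun n _ => Ideal.mul_mem_right _ _ ?_
  have h1 := congrArg (PowerSeries.coeff n) Hs_mul_As
  rw [PowerSeries.coeff_one] at h1
  rw [Polynomial.coeff_sub, Polynomial.coeff_one, ← h1, Polynomial.coeff_mul, PowerSeries.coeff_mul,
    ← sum_sub_distrib]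
  refine Ideal.sum_mem _ fun y _ => ?_
  rw [PowerSeries.coeff_trunc, PowerSeries.coeff_trunc, coeff_Hs, coeff_As]
  split_ifs with h2 h3
  · simp
  · simpa using (I l k).neg_mem (Ideal.mul_mem_left _ _ (a_mem (by omega)))
  · simpa using (I l k).neg_mem (Ideal.mul_mem_right _ _ (h_mem (by omega)))
  · simpa using (I l k).neg_mem (Ideal.mul_mem_right _ _ (h_mem (by omega)))

section Phi

variable {i : ℕ}

noncomputable def cf : Vr i → ℕ → L := Sum.elim (fun _ => h) fun _ => a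

def Kb (l k : ℕ) : Vr i → ℕ := Sum.elim (fun _ => k) fun _ => l

noncomputable def Gs (l k : ℕ) (s : Vr i) (x : ℚ) : L := ∑ n ∈ range (Kb l k s + 1), x ^ n • cf s n

noncomputable def Phi (i l k : ℕ) (τ : L →ₗ[ℚ] ℚ) : L →ₗ[ℚ] MvPolynomial (Vr i) ℚ :=
  ∑ γ ∈ Fintype.piFinset fun s : Vr i => range (Kb l k s + 1),
    monomial (Finsupp.equivFunOnFinite.symm γ) ∘ₗ τ ∘ₗ LinearMap.mulRight ℚ (∏ s, cf s (γ s))

lemma Phi_apply (l k : ℕ) (τ : L →ₗ[ℚ] ℚ) (F : L) : Phi i l k τ F =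
    ∑ γ ∈ Fintype.piFinset fun s : Vr i => range (Kb l k s + 1),
      monomial (Finsupp.equivFunOnFinite.symm γ) (τ (F * ∏ s, cf s (γ s))) := by
  rw [Phi, LinearMap.sum_apply]; rfl

lemma coeff_Phi (l k : ℕ) (τ : L →ₗ[ℚ] ℚ) (F : L) (γ : Vr i →₀ ℕ) :
    coeff γ (Phi i l k τ F) = if ∀ s, γ s ≤ Kb l k s then τ (F * ∏ s, cf s (γ s)) else 0 := by
  rw [Phi_apply, coeff_sum]
  simp only [coeff_monomial, Equiv.symm_apply_eq]
  rw [sum_ite_eq']
  simp

lemma eval_Phi (l k : ℕ) (τ : L →ₗ[ℚ] ℚ) (F : L) (x : Vr i → ℚ) :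
    eval x (Phi i l k τ F) = τ (F * ∏ s, Gs l k s (x s)) := by
  rw [Phi_apply, map_sum]
  simp only [Gs]
  rw [prod_univ_sum, mul_sum, map_sum]
  refine sum_congr rfl fun γ _ => ?_
  rw [eval_monomial, Finsupp.prod_fintype _ _ (by simp), prod_smul, mul_smul_comm, map_smul,
    smul_eq_mul, mul_comm]
  simp

lemma Gs_mem_inl (l k : ℕ) (t : Fin (i + 1)) (x : ℚ) : Gs l k (Sum.inl t) x ∈ HS :=
  Submodule.sum_mem _ fun n _ => Submodule.smul_mem _ _ (Submodule.subset_span ⟨n, rfl⟩)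

lemma Gs_mem_inr (l k : ℕ) (t : Fin i) (x : ℚ) : Gs l k (Sum.inr t : Vr i) x ∈ AS :=
  Submodule.sum_mem _ fun n _ => Submodule.smul_mem _ _ (Submodule.subset_span ⟨n, rfl⟩)

/-- The filtration by hooks. -/
noncomputable def Mi : ℕ → Submodule ℚ L
  | 0 => ⊥
  | i + 1 => HS ^ (i + 1) * AS ^ i

lemma hom_cf (s : Vr i) (n : ℕ) : Hom (cf s n) n := by
  rcases s with s | s
  exacts [hom_h n, hom_a n]

lemma Phi_sym (l k : ℕ) (τ : L →ₗ[ℚ] ℚ) (F : L) (π : Equiv.Perm (Fin (i + 1)))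
    (π' : Equiv.Perm (Fin i)) :
    rename (Equiv.sumCongr π π') (Phi i l k τ F) = Phi i l k τ F := by
  refine MvPolynomial.funext fun x => ?_
  rw [eval_rename, eval_Phi, eval_Phi,
    ← Equiv.prod_comp (Equiv.sumCongr π π') (fun s => Gs l k s (x s))]
  have : ∀ (s : Vr i) (y : ℚ), Gs l k (Equiv.sumCongr π π' s) y = Gs l k s y := by
    intro s y
    rcases s with s | s <;> simp [Gs, Kb, cf]
  simp only [this, Function.comp_apply]

lemma prod_split {i : ℕ} (f : Vr i → L) (t : Fin (i + 1)) (v : Fin i) :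
    ∏ s, f s = (f (Sum.inl t) * f (Sum.inr v)) *
      ((∏ s ∈ univ.erase t, f (Sum.inl s)) * ∏ s ∈ univ.erase v, f (Sum.inr s)) := by
  rw [Fintype.prod_sum_type, ← mul_prod_erase _ (fun s => f (Sum.inl s)) (mem_univ t),
    ← mul_prod_erase _ (fun s => f (Sum.inr s)) (mem_univ v)]
  ring

lemma rest_mem (l k : ℕ) (y : Vr i → ℚ) (t : Fin (i + 1)) (v : Fin i) :
    (∏ s ∈ univ.erase t, Gs l k (Sum.inl s) (y (Sum.inl s))) *
      ∏ s ∈ univ.erase v, Gs l k (Sum.inr s) (y (Sum.inr s)) ∈ Mi i := by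
  have h1 := prod_mem (univ.erase t) (fun _ => HS) _
    (fun s _ => Gs_mem_inl l k s (y (Sum.inl s)))
  have h2 := prod_mem (univ.erase v) (fun _ => AS) _
    (fun s _ => Gs_mem_inr l k s (y (Sum.inr s)))
  rw [prod_const, card_erase_of_mem (mem_univ _), card_univ, Fintype.card_fin] at h1
  rw [prod_const, card_erase_of_mem (mem_univ _), card_univ, Fintype.card_fin] at h2
  have e : Mi i = HS ^ (i + 1 - 1) * AS ^ (i - 1) := by
    obtain ⟨j, rfl⟩ : ∃ j, i = j + 1 := ⟨i - 1, by have := v.2; omega⟩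
    rw [Mi, Nat.add_sub_cancel, Nat.add_sub_cancel]
  rw [e]
  exact Submodule.mul_mem_mul h1 h2

lemma Phi_van {l k : ℕ} {τ : L →ₗ[ℚ] ℚ} (hτ : Adm l k τ) {F : L}
    (hM : ∀ x ∈ Mi i, τ (F * x) = 0) (t : Fin (i + 1)) (v : Fin i) :
    rename (Function.update id (Sum.inl t) (Sum.inr v)) (Phi i l k τ F) = 0 := by
  refine MvPolynomial.funext fun x => ?_
  rw [eval_rename, eval_Phi, map_zero, prod_split _ t v]
  have e1 : (x ∘ Function.update id (Sum.inl t) (Sum.inr v)) (Sum.inl t) = x (Sum.inr v) := by simp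
  have e2 : (x ∘ Function.update id (Sum.inl t) (Sum.inr v)) (Sum.inr v) = x (Sum.inr v) := by simp
  rw [e1, e2]
  have h3 := hM _ (rest_mem l k (x ∘ Function.update id (Sum.inl t) (Sum.inr v)) t v)
  generalize (∏ s ∈ univ.erase t, Gs l k (Sum.inl s)
    ((x ∘ Function.update id (Sum.inl t) (Sum.inr v)) (Sum.inl s))) *
      ∏ s ∈ univ.erase v, Gs l k (Sum.inr s)
        ((x ∘ Function.update id (Sum.inl t) (Sum.inr v)) (Sum.inr s)) = P at h3 ⊢
  have h4 : Gs l k (Sum.inl t) (x (Sum.inr v)) * Gs l k (Sum.inr v) (x (Sum.inr v)) - 1 ∈ I l k := by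
    simp only [Gs, Kb, cf, Sum.elim_inl, Sum.elim_inr]
    exact trunc_mul_mem l k (x (Sum.inr v))
  generalize Gs l k (Sum.inl t) (x (Sum.inr v)) * Gs l k (Sum.inr v) (x (Sum.inr v)) = Z at h4 ⊢
  have h5 := hτ.ker _ (Ideal.mul_mem_right (F * P) _ h4)
  rw [sub_mul, one_mul, map_sub, h3, sub_zero] at h5
  rw [mul_left_comm]
  exact h5

lemma good_Phi {l k d : ℕ} {τ : L →ₗ[ℚ] ℚ} (hτ : Adm l k τ) {F : L} (hF : Hom F d)
    (hk : ∀ g, τ (F * (h k * g)) = 0) (hM : ∀ x ∈ Mi i, τ (F * x) = 0) :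
    Good i k l d (Phi i l k τ F) := by
  have key : ∀ γ ∈ (Phi i l k τ F).support,
      (∀ s, γ s ≤ Kb l k s) ∧ τ (F * ∏ s, cf s (γ s)) ≠ 0 := by
    intro γ hγ
    rw [MvPolynomial.mem_support_iff, coeff_Phi] at hγ
    split_ifs at hγ with h1
    · exact ⟨h1, hγ⟩
    · exact absurd rfl hγ
  refine ⟨Phi_sym l k τ F, Phi_van hτ hM, fun γ hγ t => ?_, fun γ hγ t => ?_, fun γ hγ => ?_⟩
  · obtain ⟨h1, h4⟩ := key γ hγ
    have h2 : γ (Sum.inl t) ≤ k := h1 (Sum.inl t)
    rcases h2.lt_or_eq with h3 | h3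
    · exact h3
    · rw [← mul_prod_erase _ _ (mem_univ (Sum.inl t)), h3] at h4
      exact absurd (hk _) h4
  · exact (key γ hγ).1 (Sum.inr t)
  · by_contra h2
    have h3 : Hom (∏ s, cf s (γ s)) (∑ s, γ s) :=
      IsWeightedHomogeneous.prod univ (fun s => cf s (γ s)) (fun s => γ s) fun s _ => hom_cf s _
    exact (key γ hγ).2 (hτ.deg _ _ (hF.mul h3) (by omega))

lemma of_Phi_eq_zero {l k : ℕ} {τ : L →ₗ[ℚ] ℚ} (hτ : Adm l k τ) {F : L}
    (h0 : Phi i l k τ F = 0) : ∀ x ∈ Mi (i + 1), τ (F * x) = 0 := by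
  have e : Mi (i + 1) = ∏ s : Vr i, Submodule.span ℚ (Set.range (cf s)) := by
    rw [Fintype.prod_sum_type]
    simp [Mi, cf, HS, AS]
  rw [e, Submodule.prod_span]
  change Submodule.span ℚ _ ≤ LinearMap.ker (τ ∘ₗ LinearMap.mulLeft ℚ F)
  rw [Submodule.span_le]
  intro x hx
  rw [Set.mem_fintype_prod] at hx
  obtain ⟨g, hg, rfl⟩ := hx
  choose n hn using hg
  simp only [← hn]
  change τ (F * ∏ s, cf s (n s)) = 0
  have := coeff_Phi l k τ F (Finsupp.equivFunOnFinite.symm n)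
  rw [h0, coeff_zero] at this
  split_ifs at this with h1
  · simpa using this.symm
  · push Not at h1
    obtain ⟨s, hs⟩ := h1
    refine hτ.ker _ (Ideal.mul_mem_left _ _ ?_)
    rw [← mul_prod_erase _ _ (mem_univ s)]
    refine Ideal.mul_mem_right _ _ ?_
    rcases s with s | s
    · exact h_mem (by simpa [Kb] using hs)
    · exact a_mem (by simpa [Kb] using hs)

end Phi

noncomputable def κA (m d l k : ℕ) : ℕ := finrank ℚ ↥(Ad m d ⊓ (I l k).restrictScalars ℚ)

lemma one_notMem (l k : ℕ) : (1 : L) ∉ I l k := fun h1 =>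
  one_ne_zero (stable (Nat.zero_le l) (isWeightedHomogeneous_one ℚ wt) (A k).one_mem h1)

lemma κA_step {m k : ℕ} (hm : m ≤ k) (l d : ℕ) :
    κA m d l k ≤ κA m d (l + 1) k + ∑ i ∈ Icc 1 m, (layer k (l + 1) i).coeff d := by
  cases m with
  | zero =>
    have : Ad 0 d ⊓ (I l k).restrictScalars ℚ = ⊥ := by
      rw [eq_bot_iff]
      rintro f ⟨⟨_, h2⟩, h3⟩
      have h4 : f ∈ A 0 := h2
      have e : A 0 = ⊥ := by simp [A]
      rw [e, Algebra.mem_bot] at h4
      obtain ⟨r, rfl⟩ := h4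
      by_cases hr : r = 0
      · simp [hr]
      · exfalso
        apply one_notMem l k
        have := Ideal.mul_mem_left (I l k) (algebraMap ℚ L r⁻¹) h3
        rwa [← map_mul, inv_mul_cancel₀ hr, map_one] at this
    rw [κA, this, finrank_bot]; exact Nat.zero_le _
  | succ m =>
    obtain ⟨τ, hτ, hnd⟩ := exists_tau (l + 1) k
    let W : ℕ → Submodule ℚ L := fun i => (Ad (m + 1) d ⊓ (I l k).restrictScalars ℚ) ⊓
      ⨅ x ∈ Mi i, LinearMap.ker (τ ∘ₗ LinearMap.mulRight ℚ x)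
    have hW : ∀ i F, F ∈ W i ↔ (F ∈ Ad (m + 1) d ∧ F ∈ I l k) ∧ ∀ x ∈ Mi i, τ (F * x) = 0 := by
      intro i F; simp [W, Submodule.mem_iInf]
    have hk : ∀ F ∈ I l k, ∀ s g, k ≤ s → τ (F * (h s * g)) = 0 := by
      intro F hF s g hs
      apply hτ.ker
      rw [I_succ_l, Submodule.mem_sup] at hF
      obtain ⟨y, hy, z, hz, rfl⟩ := hF
      obtain ⟨c, rfl⟩ := Ideal.mem_span_singleton'.1 hz
      have := ha_mem' (l := l + 1) hs le_rfl (by omega)
      have e : (y + c * a (l + 1)) * (h s * g) = y * (h s * g) + (c * g) * (h s * a (l + 1)) := by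
        ring
      rw [e]
      exact Ideal.add_mem _ (Ideal.mul_mem_right _ _ hy) (Ideal.mul_mem_left _ _ this)
    have hfd : ∀ i, FiniteDimensional ℚ (W i) := fun i =>
      Submodule.finiteDimensional_of_le (S₂ := Ad (m + 1) d) (inf_le_left.trans inf_le_left)
    have h1 : ∀ i, i ≤ m + 1 → finrank ℚ (W 0) ≤
        finrank ℚ (W i) + ∑ j ∈ Icc 1 i, (layer k (l + 1) j).coeff d := by
      intro i
      induction i with
      | zero => intro _; simp
      | succ i ih =>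
        intro hi
        have h2 := ih (by omega)
        have h3 := rn (Phi i (l + 1) k τ) (W i)
        have h4 : finrank ℚ ((W i).map (Phi i (l + 1) k τ)) ≤ (layer k (l + 1) (i + 1)).coeff d := by
          refine good_bound (by omega) (by omega) _ ?_
          rintro _ ⟨F, hF, rfl⟩
          have hF' := (hW i F).1 hF
          exact good_Phi hτ hF'.1.1.1 (fun g => hk F hF'.1.2 k g le_rfl) hF'.2
        have h5 : finrank ℚ ↥(W i ⊓ LinearMap.ker (Phi i (l + 1) k τ)) ≤ finrank ℚ (W (i + 1)) := by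
          refine Submodule.finrank_mono ?_
          rintro F ⟨hF, hF0⟩
          exact (hW _ F).2 ⟨((hW i F).1 hF).1, of_Phi_eq_zero hτ hF0⟩
        rw [sum_Icc_succ_top (by omega)]
        omega
    have h2 : finrank ℚ (W (m + 1)) ≤ κA (m + 1) d (l + 1) k := by
      refine Submodule.finrank_mono ?_
      intro F hF
      have hF' := (hW _ F).1 hF
      refine ⟨hF'.1.1, hnd d F hF'.1.1.1 ?_⟩
      exact all_vanish (vert_of_mem hτ hF'.1.1.2) (fun s g hs => hk F hF'.1.2 s g hs) hF'.2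
    have h3 : κA (m + 1) d l k ≤ finrank ℚ (W 0) := by
      refine Submodule.finrank_mono ?_
      intro F hF
      refine (hW _ F).2 ⟨hF, fun x hx => ?_⟩
      have : x = 0 := hx
      simp [this]
    have := h1 (m + 1) le_rfl
    omega

noncomputable def rk (m d l k : ℕ) : ℕ := finrank ℚ ((Ad m d).map (pr (I l k)))

lemma rk_add (m d l k : ℕ) : rk m d l k + κA m d l k = ad m d := by
  rw [rk, κA, ← ker_pr]; exact rn _ _

lemma rk_step {m k : ℕ} (hm : m ≤ k) (l d : ℕ) :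
    rk m d (l + 1) k + (target k m l).coeff d ≤ rk m d l k + (target k m (l + 1)).coeff d := by
  have h1 := rk_add m d l k
  have h2 := rk_add m d (l + 1) k
  have h3 := κA_step hm l d
  rw [target_succ, Polynomial.coeff_add, Polynomial.finsetSum_coeff]
  omega

theorem rk_eq {m k : ℕ} (hm : m ≤ k) (l d : ℕ) : rk m d l k = (target k m l).coeff d := by
  apply le_antisymm
  · induction l with
    | zero =>
      rw [target_zero]
      exact (Submodule.finrank_mono (Submodule.map_mono inf_le_left)).trans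
        (t_base (X_mem_base (Or.inl rfl)) d)
    | succ l ih => have := rk_step hm l d; omega
  · have key : ∀ j l : ℕ, d ≤ l + j → (target k m l).coeff d ≤ rk m d l k := by
      intro j
      induction j with
      | zero =>
        intro l hl
        have h1 := rk_add m d l k
        have h2 : Ad m d ⊓ (I l k).restrictScalars ℚ = ⊥ := by
          rw [eq_bot_iff]
          rintro f ⟨hf, hf'⟩
          exact stable (by omega) hf.1 (A_mono hm hf.2) hf'
        rw [κA, h2, finrank_bot] at h1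
        have := dom_ad.target_le k l m hm d
        omega
      | succ j ih =>
        intro l hl
        have := ih (l + 1) (by omega)
        have := rk_step hm l d
        omega
    exact key d l (by omega)

end Pool.Agent.H800Z.RT
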